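import Pool.Agent.L0h75.CV.Main

/-!
# The mean square in the form of the question
-/

set_option autoImplicit false

namespace Pool.Agent.L0h75.CV

open Finset Filter MeasureTheory
open scoped Classical

/-- the passage from the sums to the integral -/
def S_INT : Prop := ∃ C : ℝ, 0 < C ∧ ∀ (g : ℕ → ℂ), (∀ n, ‖g n‖ ≤ 1) → ∀ (X H D : ℝ), 4 ≤ H →
  4 * H ≤ X → 0 ≤ D → (∀ Y A B : ℕ, X / 4 ≤ Y → (Y : ℝ) ≤ 2 * X → Y ≤ A → A ≤ B → B ≤ 2 * Y →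
    |∑ a ∈ Ico A B, ‖∑ n ∈ Ioc a (a + ⌊H⌋₊), g n‖ ^ 2 - ⌊H⌋₊ * ∑ n ∈ Ico A B, ‖g n‖ ^ 2| ≤ D) →
  |(∫ x in X..2 * X, ‖∑ n ∈ (range (⌊x + H⌋₊ + 1)).filter (fun n : ℕ => |(n : ℝ) - x| < H / 2),
      g n‖ ^ 2) - H * ∑ n ∈ Ico ⌈X⌉₊ ⌈2 * X⌉₊, ‖g n‖ ^ 2| ≤ C * (D + X * √H + H ^ 2)

/-- the constants -/
lemma algebra (C δ X H p : ℝ) (hC : 0 < C) (hδ : 0 < δ) (hX : 1 ≤ X) (hH : 4 ≤ H)
    (hHX : 4 * H ≤ X) (hp : 0 < p) (hbig : C * (2 * 2 ^ (δ / 2) + 1) ≤ X ^ (δ / 2)) :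
    C * (H * (√(2 * X * H) + 2 * X * H / p) * (2 * X) ^ (δ / 2) + X * √H + H ^ 2) ≤
      X * ((H * (√(H / X) + H / p) + √H) * X ^ δ) := by
  have hX0 : 0 < X := by linarith
  have hH0 : 0 < H := by linarith
  obtain ⟨u, hu⟩ : ∃ u : ℝ, u = √(H / X) := ⟨_, rfl⟩
  have hu0 : 0 ≤ u := by rw [hu]; exact Real.sqrt_nonneg _
  have hu2 : u ^ 2 = H / X := by rw [hu]; exact Real.sq_sqrt (by positivity)
  have hu1 : u ≤ 1 := by
    rw [hu]
    apply Real.sqrt_le_one.2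
    rw [div_le_one hX0]
    linarith
  have hXu : √(2 * X * H) ≤ 2 * (X * u) := by
    apply Real.sqrt_le_iff.2
    refine ⟨by positivity, ?_⟩
    have : (2 * (X * u)) ^ 2 = 4 * X * H := by
      have h1 : (2 * (X * u)) ^ 2 = 4 * X ^ 2 * u ^ 2 := by ring
      rw [h1, hu2]
      field_simp
    rw [this]
    nlinarith [mul_pos hX0 hH0]
  have hHH : H ^ 2 ≤ X * (H * u) := by
    have h1 : H ^ 2 = X * H * u ^ 2 := by
      rw [hu2]
      field_simp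
    rw [h1]
    have h2 : u ^ 2 ≤ u := by nlinarith
    have h3 : 0 ≤ X * H := by positivity
    calc X * H * u ^ 2 ≤ X * H * u := mul_le_mul_of_nonneg_left h2 h3
      _ = X * (H * u) := by ring
  rw [← hu]
  obtain ⟨Z, hZ⟩ : ∃ Z : ℝ, Z = X ^ (δ / 2) := ⟨_, rfl⟩
  obtain ⟨t, ht⟩ : ∃ t : ℝ, t = (2 : ℝ) ^ (δ / 2) := ⟨_, rfl⟩
  have ht0 : 0 < t := by rw [ht]; positivity
  have hZ1 : 1 ≤ Z := by rw [hZ]; exact Real.one_le_rpow hX (by positivity)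
  have hZ2 : X ^ δ = Z * Z := by
    rw [hZ, ← Real.rpow_add hX0]
    congr 1
    ring
  have h2X : (2 * X) ^ (δ / 2) = t * Z := by
    rw [ht, hZ, Real.mul_rpow (by norm_num) hX0.le]
  rw [hZ2, h2X]
  rw [← ht, ← hZ] at hbig
  have hw0 : 0 ≤ H * (u + H / p) := by positivity
  have hs0 : 0 ≤ √H := Real.sqrt_nonneg _
  have h1 : H * (√(2 * X * H) + 2 * X * H / p) * (t * Z) ≤ 2 * t * Z * (X * (H * (u + H / p))) := by
    have h2 : √(2 * X * H) + 2 * X * H / p ≤ 2 * (X * (u + H / p)) := by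
      have : 2 * (X * (u + H / p)) = 2 * (X * u) + 2 * X * H / p := by ring
      rw [this]
      linarith
    calc H * (√(2 * X * H) + 2 * X * H / p) * (t * Z) ≤ H * (2 * (X * (u + H / p))) * (t * Z) := by
          gcongr
      _ = _ := by ring
  have h3 : X * (H * u) ≤ Z * (X * (H * (u + H / p))) := by
    have h4 : X * (H * u) ≤ X * (H * (u + H / p)) := by
      have : 0 ≤ H / p := by positivity
      gcongr
      linarith
    have h5 : 0 ≤ X * (H * (u + H / p)) := by positivity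
    nlinarith
  have h4 : C * (H * (√(2 * X * H) + 2 * X * H / p) * (t * Z) + X * √H + H ^ 2) ≤
      C * ((2 * t + 1) * Z * (X * (H * (u + H / p))) + X * √H) := by
    refine mul_le_mul_of_nonneg_left ?_ hC.le
    linarith
  refine h4.trans ?_
  have hC1 : C ≤ Z := by
    have : C * 1 ≤ C * (2 * t + 1) := mul_le_mul_of_nonneg_left (by linarith) hC.le
    linarith
  have h5 : C * ((2 * t + 1) * Z * (X * (H * (u + H / p)))) ≤ Z * (Z * (X * (H * (u + H / p)))) := by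
    have h6 : 0 ≤ Z * (X * (H * (u + H / p))) := by positivity
    calc C * ((2 * t + 1) * Z * (X * (H * (u + H / p)))) =
        (C * (2 * t + 1)) * (Z * (X * (H * (u + H / p)))) := by ring
      _ ≤ _ := mul_le_mul_of_nonneg_right hbig h6
  have h6 : C * (X * √H) ≤ Z * (Z * (X * √H)) := by
    have h7 : 0 ≤ X * √H := by positivity
    have h8 : C ≤ Z * Z := by nlinarith
    calc C * (X * √H) ≤ (Z * Z) * (X * √H) := mul_le_mul_of_nonneg_right h8 h7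
      _ = _ := by ring
  calc C * ((2 * t + 1) * Z * (X * (H * (u + H / p))) + X * √H)
      = C * ((2 * t + 1) * Z * (X * (H * (u + H / p)))) + C * (X * √H) := by ring
    _ ≤ Z * (Z * (X * (H * (u + H / p)))) + Z * (Z * (X * √H)) := add_le_add h5 h6
    _ = _ := by ring

/-- **The final form.** -/
theorem final (hI : S_INT) (K : ℕ) (ε δ : ℝ) (hε : 0 < ε) (hδ : 0 < δ) : ∃ P₀ : ℕ,
    ∀ (P : ℕ) [NeZero P], P₀ ≤ P →
    ∀ f : ℕ → ℂ, (∀ n, ‖f n‖ ≤ 1) → ∃ E : Finset (DirichletCharacter ℂ P),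
    (E.card : ℝ) ≤ (P : ℝ) ^ (1 - ε * δ / 32) ∧ ∀ χ, χ ∉ E →
    (∀ X L A B : ℕ, (P : ℝ) ^ ε ≤ X → X ≤ P ^ K → 1 ≤ L → L ≤ X → X ≤ A → A ≤ B → B ≤ 2 * X →
      |∑ a ∈ Ico A B, ‖∑ n ∈ Ioc a (a + L), f n * χ (n : ZMod P)‖ ^ 2 -
        L * ∑ n ∈ Ico A B, ‖f n * χ (n : ZMod P)‖ ^ 2| ≤
        L * (√(X * L) + X * L / √P) * (X : ℝ) ^ δ) ∧
    (∀ X H : ℝ, (P : ℝ) ^ ε ≤ X → X ≤ (P : ℝ) ^ K → 4 ≤ H → 4 * H ≤ X →
      |(1 / X) * (∫ x in X..2 * X, ‖∑ n ∈ (range (⌊x + H⌋₊ + 1)).filter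
          (fun n : ℕ => |(n : ℝ) - x| < H / 2), f n * χ (n : ZMod P)‖ ^ 2) -
        H * ((1 / X) * ∑ n ∈ Ico ⌈X⌉₊ ⌈2 * X⌉₊, ‖f n * χ (n : ZMod P)‖ ^ 2)| ≤
        (H * (√(H / X) + H / √P) + √H) * X ^ δ) := by
  obtain ⟨C, hC, hint⟩ := hI
  obtain ⟨P₁, hmain⟩ := main (K + 1) (ε / 2) (δ / 2) (by positivity) (by positivity)
  have hx : Tendsto (fun n : ℕ => (n : ℝ)) atTop atTop := tendsto_natCast_atTop_atTop
  have t1 : ∀ᶠ x : ℝ in atTop, (4 : ℝ) ≤ x ^ (ε / 2) :=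
    (tendsto_rpow_atTop (by positivity)).eventually_ge_atTop _
  have t2 : ∀ᶠ x : ℝ in atTop, C * (2 * 2 ^ (δ / 2) + 1) ≤ x ^ (ε * (δ / 2)) :=
    (tendsto_rpow_atTop (by positivity)).eventually_ge_atTop _
  obtain ⟨P₂, hP₂⟩ := eventually_atTop.1 ((hx.eventually t1).and (hx.eventually t2))
  refine ⟨max (max P₁ P₂) 2, ?_⟩
  intro P _ hP f hf
  obtain ⟨E, hE1, hE2⟩ := hmain P ((le_max_left _ _).trans ((le_max_left _ _).trans hP)) f hf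
  obtain ⟨g1, g2⟩ := hP₂ P ((le_max_right _ _).trans ((le_max_left _ _).trans hP))
  have hP2 : 2 ≤ P := (le_max_right _ _).trans hP
  have hPr : (0 : ℝ) < P := by positivity
  have hP1 : (1 : ℝ) ≤ P := by exact_mod_cast (by omega : 1 ≤ P)
  refine ⟨E, ?_, ?_⟩
  · refine hE1.trans (le_of_eq ?_)
    congr 1
    ring
  intro χ hχ
  have hεε : (P : ℝ) ^ (ε / 2) ≤ (P : ℝ) ^ ε := Real.rpow_le_rpow_of_exponent_le hP1 (by linarith)
  have hPε : (1 : ℝ) ≤ (P : ℝ) ^ ε := Real.one_le_rpow hP1 hε.le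
  refine ⟨?_, ?_⟩
  · intro X L A B hX hXK hL hLX hA hAB hB
    have h1 := (hE2 χ hχ X L (hεε.trans hX)
      (hXK.trans (Nat.pow_le_pow_right (by omega) (by omega))) hL hLX).1 A B hA hAB hB
    refine h1.trans ?_
    have hX1 : (1 : ℝ) ≤ X := hPε.trans hX
    have h2 : (X : ℝ) ^ (δ / 2) ≤ (X : ℝ) ^ δ :=
      Real.rpow_le_rpow_of_exponent_le hX1 (by linarith)
    have h3 : (0 : ℝ) ≤ L * (√(X * L) + X * L / √P) := by positivity
    exact mul_le_mul_of_nonneg_left h2 h3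
  · intro X H hX hXK hH hHX
    have hX1 : (1 : ℝ) ≤ X := hPε.trans hX
    have hX0 : (0 : ℝ) < X := by linarith
    have hH0 : (0 : ℝ) < H := by linarith
    obtain ⟨p, hp⟩ : ∃ p : ℝ, p = √(P : ℝ) := ⟨_, rfl⟩
    have hp0 : 0 < p := by rw [hp]; exact Real.sqrt_pos.2 hPr
    obtain ⟨g, hg⟩ : ∃ g : ℕ → ℂ, g = fun n => f n * χ (n : ZMod P) := ⟨_, rfl⟩
    have hgn : ∀ n : ℕ, f n * χ (n : ZMod P) = g n := fun n => by rw [hg]
    have hg1 : ∀ n, ‖g n‖ ≤ 1 := by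
      intro n
      rw [hg]
      simp only [norm_mul]
      exact mul_le_one₀ (hf n) (norm_nonneg _) (DirichletCharacter.norm_le_one χ _)
    have hD : ∀ Y A B : ℕ, X / 4 ≤ Y → (Y : ℝ) ≤ 2 * X → Y ≤ A → A ≤ B → B ≤ 2 * Y →
        |∑ a ∈ Ico A B, ‖∑ n ∈ Ioc a (a + ⌊H⌋₊), g n‖ ^ 2 -
          ⌊H⌋₊ * ∑ n ∈ Ico A B, ‖g n‖ ^ 2| ≤
        H * (√(2 * X * H) + 2 * X * H / p) * (2 * X) ^ (δ / 2) := by
      intro Y A B hY1 hY2 hA hAB hB
      have hL1 : 1 ≤ ⌊H⌋₊ := Nat.le_floor (by push_cast; linarith)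
      have hLH : (⌊H⌋₊ : ℝ) ≤ H := Nat.floor_le hH0.le
      have hLY : ⌊H⌋₊ ≤ Y := by
        have : (⌊H⌋₊ : ℝ) ≤ Y := by linarith
        exact_mod_cast this
      have hY3 : (P : ℝ) ^ (ε / 2) ≤ Y := by
        refine le_trans ?_ hY1
        have h1 : (P : ℝ) ^ (ε / 2) * (P : ℝ) ^ (ε / 2) = (P : ℝ) ^ ε := by
          rw [← Real.rpow_add hPr]
          congr 1
          ring
        have h2 : 0 < (P : ℝ) ^ (ε / 2) := by positivity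
        nlinarith
      have hY4 : Y ≤ P ^ (K + 1) := by
        have h1 : (Y : ℝ) ≤ (P : ℝ) ^ (K + 1) := by
          rw [pow_succ]
          have h2 : (2 : ℝ) ≤ P := by exact_mod_cast hP2
          have h3 : (0 : ℝ) < (P : ℝ) ^ K := by positivity
          nlinarith
        exact_mod_cast h1
      have h1 := (hE2 χ hχ Y ⌊H⌋₊ hY3 hY4 hL1 hLY).1 A B hA hAB hB
      simp only [hgn] at h1
      refine h1.trans ?_
      rw [← hp]
      gcongr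
    have h1 := hint g hg1 X H (H * (√(2 * X * H) + 2 * X * H / p) * (2 * X) ^ (δ / 2)) hH hHX
      (by positivity) hD
    simp only [hgn]
    have h2 := algebra C δ X H p hC hδ hX1 hH hHX hp0 (by
      refine g2.trans ?_
      rw [Real.rpow_mul hPr.le]
      exact Real.rpow_le_rpow (by positivity) hX (by positivity))
    have h3 := h1.trans h2
    rw [← hp]
    have h4 : (1 / X) * (∫ x in X..2 * X, ‖∑ n ∈ (range (⌊x + H⌋₊ + 1)).filter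
          (fun n : ℕ => |(n : ℝ) - x| < H / 2), g n‖ ^ 2) -
        H * ((1 / X) * ∑ n ∈ Ico ⌈X⌉₊ ⌈2 * X⌉₊, ‖g n‖ ^ 2) =
        (1 / X) * ((∫ x in X..2 * X, ‖∑ n ∈ (range (⌊x + H⌋₊ + 1)).filter
          (fun n : ℕ => |(n : ℝ) - x| < H / 2), g n‖ ^ 2) -
        H * ∑ n ∈ Ico ⌈X⌉₊ ⌈2 * X⌉₊, ‖g n‖ ^ 2) := by ring
    rw [h4, abs_mul, abs_of_pos (by positivity : (0 : ℝ) < 1 / X), one_div, inv_mul_le_iff₀ hX0]
    exact h3

end Pool.Agent.L0h75.CV
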