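import Pool.Agent.L0h75.CV.Fin

/-!
# The case of the Möbius function
-/

set_option autoImplicit false

namespace Pool.Agent.L0h75.CV

open Finset Filter MeasureTheory
open scoped Classical

/-- the number of the squarefree integers prime to `P` in an interval -/
def S_SQ : Prop := ∀ P : ℕ, P.Prime → ∀ A B : ℕ, 1 ≤ A → A ≤ B →
  |(((Ico A B).filter (fun n => Squarefree n ∧ ¬ P ∣ n)).card : ℝ) -
    6 / Real.pi ^ 2 * ((B : ℝ) - A)| ≤ 6 * √B + ((B : ℝ) - A) / P + 1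

/-- the diagonal -/
lemma diag {P : ℕ} [NeZero P] (hP : P.Prime) (f : ℕ → ℂ)
    (hf : ∀ n, ‖f n‖ = |(ArithmeticFunction.moebius n : ℝ)|) (χ : DirichletCharacter ℂ P)
    (A B : ℕ) : ∑ n ∈ Ico A B, ‖f n * χ (n : ZMod P)‖ ^ 2 =
      (((Ico A B).filter (fun n => Squarefree n ∧ ¬ P ∣ n)).card : ℝ) := by
  have h1 : ∀ n ∈ Ico A B, ‖f n * χ (n : ZMod P)‖ ^ 2 =
      if Squarefree n ∧ ¬ P ∣ n then (1 : ℝ) else 0 := by
    intro n _
    rw [norm_mul, hf]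
    by_cases hs : Squarefree n
    · by_cases hd : P ∣ n
      · rw [if_neg (fun h => h.2 hd)]
        have h2 : ((n : ℕ) : ZMod P) = 0 := (ZMod.natCast_eq_zero_iff n P).2 hd
        have : Fact P.Prime := ⟨hP⟩
        have h3 : χ (n : ZMod P) = 0 := by
          rw [h2]
          exact MulChar.map_nonunit χ not_isUnit_zero
        rw [h3]
        simp
      · rw [if_pos ⟨hs, hd⟩]
        have h2 : IsUnit ((n : ℕ) : ZMod P) :=
          (ZMod.isUnit_iff_coprime n P).2 ((Nat.Prime.coprime_iff_not_dvd hP).2 hd).symm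
        have h3 : ‖χ (n : ZMod P)‖ = 1 := by
          obtain ⟨u, hu⟩ := h2
          rw [← hu]
          exact DirichletCharacter.unit_norm_eq_one χ u
        have h4 : |(ArithmeticFunction.moebius n : ℝ)| = 1 := by
          have := ArithmeticFunction.abs_moebius_eq_one_of_squarefree hs
          rw [← Int.cast_abs, this, Int.cast_one]
        rw [h3, h4]
        norm_num
    · rw [if_neg (fun h => hs h.1), ArithmeticFunction.moebius_eq_zero_of_not_squarefree hs]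
      simp
  rw [sum_congr rfl h1, sum_boole]

/-- the constants -/
lemma algebra2 (X H p P N c₀ : ℝ) (hX : 1 ≤ X) (hH : 1 ≤ H) (hp : 0 < p) (hpP : p ^ 2 = P)
    (hP : 1 ≤ P) (A B : ℝ) (hB : B ≤ 2 * X + 1) (hAB1 : |B - A - X| ≤ 1) (hc0 : 0 ≤ c₀)
    (hc1 : c₀ ≤ 1) (hN : |N - c₀ * (B - A)| ≤ 6 * √B + (B - A) / P + 1) :
    |H * ((1 / X) * N) - H * c₀| ≤ 15 * (H * (√(H / X) + H / p)) := by
  have hX0 : 0 < X := by linarith
  have hH0 : 0 < H := by linarith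
  have hP0 : 0 < P := by linarith
  have h1 : |N - c₀ * X| ≤ 6 * √B + (B - A) / P + 2 := by
    have h2 : N - c₀ * X = (N - c₀ * (B - A)) + c₀ * (B - A - X) := by ring
    rw [h2]
    refine (abs_add_le _ _).trans ?_
    rw [abs_mul, abs_of_nonneg hc0]
    have h3 : c₀ * |B - A - X| ≤ 1 := by
      have := abs_nonneg (B - A - X)
      nlinarith
    linarith
  have h2 : √B ≤ 2 * √X := by
    apply Real.sqrt_le_iff.2
    refine ⟨by positivity, ?_⟩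
    rw [mul_pow, Real.sq_sqrt hX0.le]
    linarith
  have h3 : B - A ≤ 2 * X := by
    have := (abs_le.1 hAB1).2
    linarith
  have h4 : (B - A) / P ≤ 2 * X / P := by gcongr
  have h5 : 1 ≤ √X := Real.one_le_sqrt.2 hX
  have h6 : |N - c₀ * X| ≤ 14 * √X + 2 * X / P := by linarith
  have h7 : H * ((1 / X) * N) - H * c₀ = (H / X) * (N - c₀ * X) := by
    field_simp
  rw [h7, abs_mul, abs_of_pos (by positivity : 0 < H / X)]
  have h8 : H / X * √X ≤ H * √(H / X) := by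
    have h9 : H / X * √X = H * √(1 / X) := by
      have h10 : √X / X = √(1 / X) := by
        rw [Real.sqrt_div_self', Real.sqrt_div (by norm_num), Real.sqrt_one]
      calc H / X * √X = H * (√X / X) := by ring
        _ = _ := by rw [h10]
    rw [h9]
    gcongr
  have h9 : H / X * (2 * X / P) ≤ 2 * (H * (H / p)) := by
    have h10 : H / X * (2 * X / P) = 2 * (H * (1 / P)) := by field_simp
    rw [h10]
    have h11 : 1 / P ≤ H / p := by
      rw [div_le_div_iff₀ hP0 hp, one_mul]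
      have h12 : 1 ≤ p := by nlinarith
      nlinarith
    gcongr
  have hp1 : 0 ≤ H * (H / p) := by positivity
  have hp2 : 0 ≤ H * √(H / X) := by positivity
  calc H / X * |N - c₀ * X| ≤ H / X * (14 * √X + 2 * X / P) := by gcongr
    _ = 14 * (H / X * √X) + H / X * (2 * X / P) := by ring
    _ ≤ 14 * (H * √(H / X)) + 2 * (H * (H / p)) := by linarith
    _ ≤ 15 * (H * (√(H / X) + H / p)) := by nlinarith

/-- **The final form, with the case of the Möbius function.** -/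
theorem final2 (hI : S_INT) (hS : S_SQ) (K : ℕ) (ε δ : ℝ) (hε : 0 < ε) (hδ : 0 < δ) : ∃ P₀ : ℕ,
    ∀ (P : ℕ) [NeZero P], P₀ ≤ P →
    ∀ f : ℕ → ℂ, (∀ n, ‖f n‖ ≤ 1) → ∃ E : Finset (DirichletCharacter ℂ P),
    (E.card : ℝ) ≤ (P : ℝ) ^ (1 - ε * δ / 64) ∧ ∀ χ, χ ∉ E →
    (∀ X L A B : ℕ, (P : ℝ) ^ ε ≤ X → X ≤ P ^ K → 1 ≤ L → L ≤ X → X ≤ A → A ≤ B → B ≤ 2 * X →
      |∑ a ∈ Ico A B, ‖∑ n ∈ Ioc a (a + L), f n * χ (n : ZMod P)‖ ^ 2 -
        L * ∑ n ∈ Ico A B, ‖f n * χ (n : ZMod P)‖ ^ 2| ≤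
        L * (√(X * L) + X * L / √P) * (X : ℝ) ^ δ) ∧
    (∀ X H : ℝ, (P : ℝ) ^ ε ≤ X → X ≤ (P : ℝ) ^ K → 4 ≤ H → 4 * H ≤ X →
      |(1 / X) * (∫ x in X..2 * X, ‖∑ n ∈ (range (⌊x + H⌋₊ + 1)).filter
          (fun n : ℕ => |(n : ℝ) - x| < H / 2), f n * χ (n : ZMod P)‖ ^ 2) -
        H * ((1 / X) * ∑ n ∈ Ico ⌈X⌉₊ ⌈2 * X⌉₊, ‖f n * χ (n : ZMod P)‖ ^ 2)| ≤
        (H * (√(H / X) + H / √P) + √H) * X ^ δ) ∧
    (P.Prime → (∀ n, ‖f n‖ = |(ArithmeticFunction.moebius n : ℝ)|) →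
      ∀ X H : ℝ, (P : ℝ) ^ ε ≤ X → X ≤ (P : ℝ) ^ K → 4 ≤ H → 4 * H ≤ X →
      |(1 / X) * (∫ x in X..2 * X, ‖∑ n ∈ (range (⌊x + H⌋₊ + 1)).filter
          (fun n : ℕ => |(n : ℝ) - x| < H / 2), f n * χ (n : ZMod P)‖ ^ 2) -
        H / (Real.pi ^ 2 / 6)| ≤ (H * (√(H / X) + H / √P) + √H) * X ^ δ) := by
  obtain ⟨P₁, hmain⟩ := final hI K ε (δ / 2) hε (by positivity)
  have hx : Tendsto (fun n : ℕ => (n : ℝ)) atTop atTop := tendsto_natCast_atTop_atTop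
  have t1 : ∀ᶠ x : ℝ in atTop, (16 : ℝ) ≤ x ^ (ε * (δ / 2)) :=
    (tendsto_rpow_atTop (by positivity)).eventually_ge_atTop _
  obtain ⟨P₂, hP₂⟩ := eventually_atTop.1 (hx.eventually t1)
  refine ⟨max (max P₁ P₂) 2, ?_⟩
  intro P _ hP f hf
  obtain ⟨E, hE1, hE2⟩ := hmain P ((le_max_left _ _).trans ((le_max_left _ _).trans hP)) f hf
  have g1 := hP₂ P ((le_max_right _ _).trans ((le_max_left _ _).trans hP))
  have hP2 : 2 ≤ P := (le_max_right _ _).trans hP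
  have hPr : (0 : ℝ) < P := by positivity
  have hP1 : (1 : ℝ) ≤ P := by exact_mod_cast (by omega : 1 ≤ P)
  have hPε : (1 : ℝ) ≤ (P : ℝ) ^ ε := Real.one_le_rpow hP1 hε.le
  refine ⟨E, ?_, ?_⟩
  · refine hE1.trans (le_of_eq ?_)
    congr 1
    ring
  intro χ hχ
  obtain ⟨q1, q2⟩ := hE2 χ hχ
  refine ⟨?_, ?_, ?_⟩
  · intro X L A B hX hXK hL hLX hA hAB hB
    refine (q1 X L A B hX hXK hL hLX hA hAB hB).trans ?_
    have h2 : (X : ℝ) ^ (δ / 2) ≤ (X : ℝ) ^ δ :=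
      Real.rpow_le_rpow_of_exponent_le (hPε.trans hX) (by linarith)
    have h3 : (0 : ℝ) ≤ L * (√(X * L) + X * L / √P) := by positivity
    exact mul_le_mul_of_nonneg_left h2 h3
  · intro X H hX hXK hH hHX
    refine (q2 X H hX hXK hH hHX).trans ?_
    have h2 : X ^ (δ / 2) ≤ X ^ δ :=
      Real.rpow_le_rpow_of_exponent_le (hPε.trans hX) (by linarith)
    have hX0 : 0 < X := by linarith
    have h3 : (0 : ℝ) ≤ H * (√(H / X) + H / √P) + √H := by positivity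
    exact mul_le_mul_of_nonneg_left h2 h3
  · intro hprime hfm X H hX hXK hH hHX
    have hX1 : 1 ≤ X := hPε.trans hX
    have hX0 : 0 < X := by linarith
    have hH0 : 0 < H := by linarith
    have h1 := q2 X H hX hXK hH hHX
    rw [diag hprime f hfm χ] at h1
    obtain ⟨p, hp⟩ : ∃ p : ℝ, p = √(P : ℝ) := ⟨_, rfl⟩
    have hp0 : 0 < p := by rw [hp]; exact Real.sqrt_pos.2 hPr
    have hp2 : p ^ 2 = P := by rw [hp]; exact Real.sq_sqrt hPr.le
    rw [← hp] at h1 ⊢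
    obtain ⟨N, hN⟩ : ∃ N : ℝ, N = (((Ico ⌈X⌉₊ ⌈2 * X⌉₊).filter
      (fun n => Squarefree n ∧ ¬ P ∣ n)).card : ℝ) := ⟨_, rfl⟩
    have hA1 : 1 ≤ ⌈X⌉₊ := Nat.one_le_ceil_iff.2 hX0
    have hAB : ⌈X⌉₊ ≤ ⌈2 * X⌉₊ := Nat.ceil_le_ceil (by linarith)
    have h2 := hS P hprime ⌈X⌉₊ ⌈2 * X⌉₊ hA1 hAB
    rw [← hN] at h1 h2
    have c1 : (⌈X⌉₊ : ℝ) < X + 1 := Nat.ceil_lt_add_one hX0.le
    have c2 : (⌈2 * X⌉₊ : ℝ) < 2 * X + 1 := Nat.ceil_lt_add_one (by positivity)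
    have c3 : X ≤ (⌈X⌉₊ : ℝ) := Nat.le_ceil _
    have c4 : 2 * X ≤ (⌈2 * X⌉₊ : ℝ) := Nat.le_ceil _
    have hpi : (9 : ℝ) ≤ Real.pi ^ 2 := by nlinarith [Real.pi_gt_three]
    have h3 := algebra2 X H p P N (6 / Real.pi ^ 2) hX1 (by linarith) hp0 hp2 hP1
      (⌈X⌉₊ : ℝ) (⌈2 * X⌉₊ : ℝ) c2.le (by rw [abs_le]; constructor <;> linarith)
      (by positivity) (by rw [div_le_one (by positivity)]; linarith) h2
    obtain ⟨I, hIe⟩ : ∃ I : ℝ, I = (1 / X) * (∫ x in X..2 * X, ‖∑ n ∈ (range (⌊x + H⌋₊ + 1)).filter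
          (fun n : ℕ => |(n : ℝ) - x| < H / 2), f n * χ (n : ZMod P)‖ ^ 2) := ⟨_, rfl⟩
    rw [← hIe] at h1 ⊢
    have e1 : H / (Real.pi ^ 2 / 6) = H * (6 / Real.pi ^ 2) := by
      have := Real.pi_pos
      field_simp
    rw [e1]
    obtain ⟨S, hSd⟩ : ∃ S : ℝ, S = H * (√(H / X) + H / p) := ⟨_, rfl⟩
    rw [← hSd] at h1 h3 ⊢
    have hS0 : 0 ≤ S := by rw [hSd]; positivity
    have hs0 : 0 ≤ √H := Real.sqrt_nonneg _
    have h16 : (16 : ℝ) ≤ X ^ (δ / 2) := by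
      refine g1.trans ?_
      rw [Real.rpow_mul hPr.le]
      exact Real.rpow_le_rpow (by positivity) hX (by positivity)
    have hXX : X ^ δ = X ^ (δ / 2) * X ^ (δ / 2) := by
      rw [← Real.rpow_add hX0]
      congr 1
      ring
    have h4 : |I - H * (6 / Real.pi ^ 2)| ≤ (S + √H) * X ^ (δ / 2) + 15 * S := by
      have h5 : I - H * (6 / Real.pi ^ 2) = (I - H * ((1 / X) * N)) +
          (H * ((1 / X) * N) - H * (6 / Real.pi ^ 2)) := by ring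
      rw [h5]
      exact (abs_add_le _ _).trans (add_le_add h1 h3)
    refine h4.trans ?_
    rw [hXX]
    have h6 : 15 * S ≤ 15 * (S + √H) := by linarith
    have h7 : 0 ≤ S + √H := by linarith
    have h8 : X ^ (δ / 2) + 15 ≤ X ^ (δ / 2) * X ^ (δ / 2) := by nlinarith
    calc (S + √H) * X ^ (δ / 2) + 15 * S ≤ (S + √H) * (X ^ (δ / 2) + 15) := by linarith
      _ ≤ _ := mul_le_mul_of_nonneg_left h8 h7

end Pool.Agent.L0h75.CV
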