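import Pool.Agent.L0h75.CV.Max

/-!
# From rectangular sums to the mean square over short intervals
-/

set_option autoImplicit false

namespace Pool.Agent.L0h75.CV

open Finset
open scoped ComplexConjugate

lemma sqsum (z : ℕ → ℂ) (L : ℕ) :
    ‖∑ i ∈ range L, z i‖ ^ 2 = ∑ i ∈ range L, ‖z i‖ ^ 2 +
      2 * (∑ i ∈ range L, ∑ l ∈ range (L - 1 - i), z i * conj (z (i + (l + 1)))).re := by
  induction L with
  | zero => simp
  | succ L ih =>
    rw [sum_range_succ, sum_range_succ, Complex.sq_norm, Complex.normSq_add, ← Complex.sq_norm,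
      ← Complex.sq_norm, ih]
    have h1 : ∑ i ∈ range (L + 1), ∑ l ∈ range (L + 1 - 1 - i), z i * conj (z (i + (l + 1))) =
        ∑ i ∈ range L, ∑ l ∈ range (L - 1 - i), z i * conj (z (i + (l + 1))) +
        (∑ i ∈ range L, z i) * conj (z L) := by
      rw [sum_range_succ]
      have h2 : L + 1 - 1 - L = 0 := by omega
      rw [h2, range_zero, sum_empty, add_zero, sum_mul, ← sum_add_distrib]
      refine sum_congr rfl fun i hi => ?_
      rw [mem_range] at hi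
      have h3 : L + 1 - 1 - i = (L - 1 - i) + 1 := by omega
      rw [h3, sum_range_succ]
      have h4 : i + (L - 1 - i + 1) = L := by omega
      rw [h4]
    rw [h1, Complex.add_re]
    ring

lemma slide (u : ℕ → ℝ) (hu0 : ∀ n, 0 ≤ u n) (hu1 : ∀ n, u n ≤ 1) (A B : ℕ) (hAB : A ≤ B)
    (t : ℕ) : |∑ n ∈ Ico (A + t) (B + t), u n - ∑ n ∈ Ico A B, u n| ≤ t := by
  induction t with
  | zero => simp
  | succ t ih =>
    have h1 : ∑ n ∈ Ico (A + t) (B + t), u n + u (B + t) =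
        u (A + t) + ∑ n ∈ Ico (A + (t + 1)) (B + (t + 1)), u n := by
      rw [← sum_Ico_succ_top (by omega), sum_eq_sum_Ico_succ_bot (by omega)]
      rfl
    have h2 := hu0 (A + t)
    have h3 := hu1 (A + t)
    have h4 := hu0 (B + t)
    have h5 := hu1 (B + t)
    rw [abs_le] at ih ⊢
    push_cast
    constructor <;> linarith [ih.1, ih.2]

lemma var_bound (g : ℕ → ℂ) (hg : ∀ n, ‖g n‖ ≤ 1) (A B L : ℕ) (hAB : A ≤ B) (R : ℝ)
    (hR : ∀ i < L, ‖∑ n ∈ Ico (A + (1 + i)) (B + (1 + i)), ∑ l ∈ range (L - 1 - i),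
      g n * conj (g (n + (l + 1)))‖ ≤ R) :
    |∑ a ∈ Ico A B, ‖∑ n ∈ Ioc a (a + L), g n‖ ^ 2 - L * ∑ n ∈ Ico A B, ‖g n‖ ^ 2| ≤
      (L : ℝ) ^ 2 + 2 * (L * R) := by
  have h1 : ∀ a : ℕ, ∑ n ∈ Ioc a (a + L), g n = ∑ i ∈ range L, g (a + (1 + i)) := by
    intro a
    have h2 : Ioc a (a + L) = Ico (a + 1) (a + 1 + L) := by
      ext n
      simp only [mem_Ioc, mem_Ico]
      omega
    rw [h2, sum_Ico_eq_sum_range]
    have h3 : a + 1 + L - (a + 1) = L := by omega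
    rw [h3]
    refine sum_congr rfl fun i _ => ?_
    rw [Nat.add_assoc]
  have h2 : ∑ a ∈ Ico A B, ‖∑ n ∈ Ioc a (a + L), g n‖ ^ 2 =
      ∑ i ∈ range L, ∑ n ∈ Ico (A + (1 + i)) (B + (1 + i)), ‖g n‖ ^ 2 +
      2 * (∑ i ∈ range L, ∑ n ∈ Ico (A + (1 + i)) (B + (1 + i)), ∑ l ∈ range (L - 1 - i),
        g n * conj (g (n + (l + 1)))).re := by
    have h3 : ∀ a ∈ Ico A B, ‖∑ n ∈ Ioc a (a + L), g n‖ ^ 2 =
        ∑ i ∈ range L, ‖g (a + (1 + i))‖ ^ 2 +
        2 * (∑ i ∈ range L, ∑ l ∈ range (L - 1 - i),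
          g (a + (1 + i)) * conj (g (a + (1 + i) + (l + 1)))).re := by
      intro a _
      rw [h1, sqsum (fun i => g (a + (1 + i)))]
      have h4 : ∀ i l : ℕ, a + (1 + (i + (l + 1))) = a + (1 + i) + (l + 1) := by
        intro i l
        omega
      simp only [h4]
    rw [sum_congr rfl h3, sum_add_distrib, ← mul_sum, ← Complex.re_sum]
    congr 1
    · rw [sum_comm]
      refine sum_congr rfl fun i _ => ?_
      exact sum_Ico_add' (fun n => ‖g n‖ ^ 2) A B (1 + i)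
    · congr 2
      rw [sum_comm]
      refine sum_congr rfl fun i _ => ?_
      exact sum_Ico_add' (fun n => ∑ l ∈ range (L - 1 - i), g n * conj (g (n + (l + 1)))) A B
        (1 + i)
  have h3 : |∑ i ∈ range L, ∑ n ∈ Ico (A + (1 + i)) (B + (1 + i)), ‖g n‖ ^ 2 -
      L * ∑ n ∈ Ico A B, ‖g n‖ ^ 2| ≤ (L : ℝ) ^ 2 := by
    have h4 : (L : ℝ) * ∑ n ∈ Ico A B, ‖g n‖ ^ 2 = ∑ i ∈ range L, ∑ n ∈ Ico A B, ‖g n‖ ^ 2 := by
      rw [sum_const, card_range, nsmul_eq_mul]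
    rw [h4, ← sum_sub_distrib]
    refine (abs_sum_le_sum_abs _ _).trans ?_
    have h5 : ∀ i ∈ range L, |∑ n ∈ Ico (A + (1 + i)) (B + (1 + i)), ‖g n‖ ^ 2 -
        ∑ n ∈ Ico A B, ‖g n‖ ^ 2| ≤ (L : ℝ) := by
      intro i hi
      rw [mem_range] at hi
      refine (slide (fun n => ‖g n‖ ^ 2) (fun n => by positivity)
        (fun n => pow_le_one₀ (norm_nonneg _) (hg n)) A B hAB (1 + i)).trans ?_
      exact_mod_cast (by omega : 1 + i ≤ L)
    refine (sum_le_sum h5).trans (le_of_eq ?_)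
    rw [sum_const, card_range, nsmul_eq_mul]
    ring
  have h4 : |(∑ i ∈ range L, ∑ n ∈ Ico (A + (1 + i)) (B + (1 + i)), ∑ l ∈ range (L - 1 - i),
        g n * conj (g (n + (l + 1)))).re| ≤ L * R := by
    refine (Complex.abs_re_le_norm _).trans ((norm_sum_le _ _).trans ?_)
    refine (sum_le_sum fun i hi => hR i (mem_range.1 hi)).trans (le_of_eq ?_)
    rw [sum_const, card_range, nsmul_eq_mul]
  rw [h2]
  rw [abs_le] at h3 h4 ⊢
  constructor <;> linarith [h3.1, h3.2, h4.1, h4.2]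

lemma ico_le (F : ℕ → ℂ) (N A B M : ℕ) (hA : N ≤ A) (hAB : A ≤ B) (hB : B ≤ N + M) (R : ℝ)
    (hR : ∀ u ≤ M, ‖∑ i ∈ range u, F (N + i)‖ ≤ R) : ‖∑ n ∈ Ico A B, F n‖ ≤ 2 * R := by
  have h1 : ∑ n ∈ Ico N A, F n + ∑ n ∈ Ico A B, F n = ∑ n ∈ Ico N B, F n :=
    sum_Ico_consecutive F hA hAB
  rw [sum_Ico_eq_sum_range F N A, sum_Ico_eq_sum_range F N B] at h1
  have h2 : ∑ n ∈ Ico A B, F n = ∑ i ∈ range (B - N), F (N + i) - ∑ i ∈ range (A - N), F (N + i) :=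
    eq_sub_of_add_eq' h1
  rw [h2]
  refine (norm_sub_le _ _).trans ?_
  have h3 := hR (B - N) (by omega)
  have h4 := hR (A - N) (by omega)
  linarith

end Pool.Agent.L0h75.CV
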