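import Pool.Agent.L0h75.CV.Orth
import Pool.Agent.L0h75.CV.Win

/-!
# Almost all characters: averaged pair correlations and the mean square over short intervals
-/

set_option autoImplicit false

namespace Pool.Agent.L0h75.CV

open Finset Filter
open scoped ComplexConjugate Classical

/-- Chebyshev -/
lemma cheb {ι : Type} [Fintype ι] (F : ι → ℝ) (hF : ∀ i, 0 ≤ F i) (M t : ℝ) (ht : 0 < t)
    (hM : ∑ i, F i ≤ M) : ((univ.filter (fun i => t < F i)).card : ℝ) ≤ M / t := by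
  rw [le_div_iff₀ ht]
  refine le_trans ?_ hM
  calc ((univ.filter (fun i => t < F i)).card : ℝ) * t
      = ∑ i ∈ univ.filter (fun i => t < F i), t := by rw [sum_const, nsmul_eq_mul]
    _ ≤ ∑ i ∈ univ.filter (fun i => t < F i), F i :=
        sum_le_sum fun i hi => (mem_filter.1 hi).2.le
    _ ≤ ∑ i, F i := sum_le_sum_of_subset_of_nonneg (filter_subset _ _) fun i _ _ => hF i

/-- the exceptional characters -/
lemma exceptional (K : ℕ) (η : ℝ) (hη : 0 < η) : ∃ C : ℝ, 0 < C ∧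
    ∀ (P : ℕ) [NeZero P] (f : ℕ → ℂ), 2 ≤ P →
    (∀ n, ‖f n‖ ≤ 1) → ∃ E : Finset (DirichletCharacter ℂ P),
    (E.card : ℝ) ≤ C * ((Nat.log 2 (P ^ (K + 1)) : ℝ) + 4) ^ 4 * (P : ℝ) ^ (1 - η / 2) ∧
    ∀ χ, χ ∉ E → ∀ s q : ℕ, 2 ^ s ≤ P ^ (K + 1) → 2 ^ q ≤ P ^ (K + 1) →
      Q2 (s + 3) q (xx f χ (2 ^ s)) ≤ 2 ^ (s + 3) * 2 ^ q *
        ((((2 ^ s + 2 ^ (s + 3)) * 2 ^ q : ℕ) : ℝ) / P + 1) * (P : ℝ) ^ η := by
  obtain ⟨C, hC, hmom⟩ := moment (η / (2 * (2 * K + 6))) (by positivity)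
  refine ⟨C, hC, ?_⟩
  intro P _ f hP2 hf
  have hP0 : 0 < P := by omega
  have hPr : (0 : ℝ) < P := by exact_mod_cast hP0
  have hP2r : (2 : ℝ) ≤ P := by exact_mod_cast hP2
  obtain ⟨lg, hlg⟩ : ∃ lg : ℕ, lg = Nat.log 2 (P ^ (K + 1)) := ⟨_, rfl⟩
  rw [← hlg]
  obtain ⟨T, hT⟩ : ∃ T : Finset (ℕ × ℕ), T = ((range (lg + 1)) ×ˢ (range (lg + 1))).filter
      (fun p => 2 ^ p.1 ≤ P ^ (K + 1) ∧ 2 ^ p.2 ≤ P ^ (K + 1)) := ⟨_, rfl⟩
  obtain ⟨th, hth⟩ : ∃ th : ℕ × ℕ → ℝ, th = fun p => 2 ^ (p.1 + 3) * 2 ^ p.2 *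
        ((((2 ^ p.1 + 2 ^ (p.1 + 3)) * 2 ^ p.2 : ℕ) : ℝ) / P + 1) * (P : ℝ) ^ η := ⟨_, rfl⟩
  obtain ⟨Bad, hBad⟩ : ∃ Bad : ℕ × ℕ → Finset (DirichletCharacter ℂ P), Bad = fun p =>
      univ.filter (fun χ => th p < Q2 (p.1 + 3) p.2 (xx f χ (2 ^ p.1))) := ⟨_, rfl⟩
  refine ⟨T.biUnion Bad, ?_, ?_⟩
  · have h1 : ∀ p ∈ T, ((Bad p).card : ℝ) ≤
        C * ((lg : ℝ) + 4) ^ 2 * (P : ℝ) ^ (1 - η / 2) := by
      intro p hp
      rw [hT] at hp
      obtain ⟨hp1, hp2, hp2'⟩ := mem_filter.1 hp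
      obtain ⟨hp3, hp4⟩ := mem_product.1 hp1
      rw [mem_range] at hp3 hp4
      obtain ⟨M, hM⟩ : ∃ M : ℕ, M = (2 ^ p.1 + 2 ^ (p.1 + 3)) * 2 ^ p.2 := ⟨_, rfl⟩
      have h2 := hmom P (2 ^ p.1) (p.1 + 3) p.2 (Nat.one_le_two_pow) f hf
      rw [← hM] at h2
      have hMP : (M : ℝ) ^ (η / (2 * (2 * K + 6))) ≤ (P : ℝ) ^ (η / 2) := by
        have e1 : (M : ℝ) ≤ (P : ℝ) ^ (2 * (K : ℝ) + 6) := by
          have e2 : M ≤ P ^ (2 * K + 6) := by
            have e3 : M = 9 * (2 ^ p.1 * 2 ^ p.2) := by rw [hM]; ring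
            have e4 : 9 ≤ P ^ 4 := by
              calc 9 ≤ 2 ^ 4 := by norm_num
                _ ≤ P ^ 4 := Nat.pow_le_pow_left hP2 4
            rw [e3]
            calc 9 * (2 ^ p.1 * 2 ^ p.2) ≤ P ^ 4 * (P ^ (K + 1) * P ^ (K + 1)) :=
                  Nat.mul_le_mul e4 (Nat.mul_le_mul hp2 hp2')
              _ = P ^ (2 * K + 6) := by ring
          have e5 : (M : ℝ) ≤ (P : ℝ) ^ (2 * K + 6) := by exact_mod_cast e2
          refine e5.trans (le_of_eq ?_)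
          rw [← Real.rpow_natCast]
          congr 1
          push_cast
          ring
        calc (M : ℝ) ^ (η / (2 * (2 * K + 6)))
            ≤ ((P : ℝ) ^ (2 * (K : ℝ) + 6)) ^ (η / (2 * (2 * K + 6))) := by gcongr
          _ = (P : ℝ) ^ (η / 2) := by
            rw [← Real.rpow_mul hPr.le]
            congr 1
            field_simp
      have hpos : (0 : ℝ) < th p := by rw [hth]; positivity
      have h3 := cheb (fun χ : DirichletCharacter ℂ P => Q2 (p.1 + 3) p.2 (xx f χ (2 ^ p.1)))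
        (fun χ => Q2_nonneg _ _ _) _ _ hpos h2
      have h4 : Bad p = univ.filter (fun χ : DirichletCharacter ℂ P =>
          th p < Q2 (p.1 + 3) p.2 (xx f χ (2 ^ p.1))) := by
        rw [hBad]
      rw [h4]
      refine h3.trans ?_
      rw [div_le_iff₀ hpos]
      have e1 : (P : ℝ) ^ (1 - η / 2) * (P : ℝ) ^ η = P * (P : ℝ) ^ (η / 2) := by
        rw [← Real.rpow_add hPr, ← Real.rpow_one_add' hPr.le (by positivity)]
        congr 1
        ring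
      have e2 : ((p.1 + 3 : ℕ) : ℝ) + 1 ≤ (lg : ℝ) + 4 := by
        have : p.1 ≤ lg := by omega
        have : (p.1 : ℝ) ≤ lg := by exact_mod_cast this
        push_cast
        linarith
      have e3 : (p.2 : ℝ) + 1 ≤ (lg : ℝ) + 4 := by
        have : p.2 ≤ lg := by omega
        have : (p.2 : ℝ) ≤ lg := by exact_mod_cast this
        linarith
      have e4 : th p = 2 ^ (p.1 + 3) * 2 ^ p.2 * ((M : ℝ) / P + 1) * (P : ℝ) ^ η := by
        rw [hth, hM]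
      rw [e4]
      calc (((p.1 + 3 : ℕ) : ℝ) + 1) * ((p.2 : ℝ) + 1) *
            (P * (C * (M : ℝ) ^ (η / (2 * (2 * K + 6))) * ((M : ℝ) / P + 1) *
              (2 ^ (p.1 + 3) * 2 ^ p.2)))
          ≤ ((lg : ℝ) + 4) * ((lg : ℝ) + 4) *
            (P * (C * (P : ℝ) ^ (η / 2) * ((M : ℝ) / P + 1) * (2 ^ (p.1 + 3) * 2 ^ p.2))) := by
            gcongr
        _ = C * ((lg : ℝ) + 4) ^ 2 * (P * (P : ℝ) ^ (η / 2)) *
            (2 ^ (p.1 + 3) * 2 ^ p.2 * ((M : ℝ) / P + 1)) := by ring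
        _ = C * ((lg : ℝ) + 4) ^ 2 * (P : ℝ) ^ (1 - η / 2) *
            (2 ^ (p.1 + 3) * 2 ^ p.2 * ((M : ℝ) / P + 1) * (P : ℝ) ^ η) := by
            rw [← e1]
            ring
    have h2 : ((T.biUnion Bad).card : ℝ) ≤ ∑ p ∈ T, ((Bad p).card : ℝ) := by
      exact_mod_cast card_biUnion_le
    have h3 : (T.card : ℝ) ≤ ((lg : ℝ) + 4) ^ 2 := by
      have h4 : T.card ≤ (lg + 1) * (lg + 1) := by
        rw [hT]
        refine (card_filter_le _ _).trans ?_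
        rw [card_product, card_range]
      have h5 : (T.card : ℝ) ≤ ((lg : ℝ) + 1) * ((lg : ℝ) + 1) := by
        exact_mod_cast h4
      refine h5.trans ?_
      rw [sq]
      gcongr <;> norm_num
    refine h2.trans ((sum_le_sum h1).trans ?_)
    rw [sum_const, nsmul_eq_mul]
    calc (T.card : ℝ) * (C * ((lg : ℝ) + 4) ^ 2 * (P : ℝ) ^ (1 - η / 2))
        ≤ ((lg : ℝ) + 4) ^ 2 * (C * ((lg : ℝ) + 4) ^ 2 * (P : ℝ) ^ (1 - η / 2)) := by gcongr
      _ = _ := by ring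
  · intro χ hχ s q hs hq
    by_contra hcon
    rw [not_le] at hcon
    apply hχ
    rw [mem_biUnion]
    refine ⟨(s, q), ?_, ?_⟩
    · rw [hT, mem_filter, mem_product, mem_range, mem_range]
      refine ⟨⟨?_, ?_⟩, hs, hq⟩
      · have := Nat.le_log_of_pow_le (by norm_num) hs
        show s < _
        omega
      · have := Nat.le_log_of_pow_le (by norm_num) hq
        show q < _
        omega
    · rw [hBad]
      refine mem_filter.2 ⟨mem_univ _, ?_⟩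
      rw [hth]
      exact hcon

/-- the growth conditions -/
lemma growth (K : ℕ) (C η ε : ℝ) (hC : 0 < C) (hη : 0 < η) (hε : 0 < ε) : ∃ P₀ : ℕ, 2 ≤ P₀ ∧
    ∀ P : ℕ, P₀ ≤ P →
    C * ((Nat.log 2 (P ^ (K + 1)) : ℝ) + 4) ^ 4 ≤ (P : ℝ) ^ (η / 4) ∧
    34 * ((Nat.log 2 (P ^ (K + 1)) : ℝ) + 4) ≤ (P : ℝ) ^ (η / 2) ∧ (3 : ℝ) ≤ (P : ℝ) ^ ε := by
  obtain ⟨D, hD⟩ : ∃ D : ℝ, D = 4 * ((K : ℝ) + 1) := ⟨_, rfl⟩
  have hD0 : 0 < D := by rw [hD]; positivity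
  have hlog : ∀ P : ℕ, 16 ≤ P → (Nat.log 2 (P ^ (K + 1)) : ℝ) + 4 ≤ D * Real.log P := by
    intro P hP
    have hP0 : (0 : ℝ) < P := by positivity
    have h1 : (2 : ℝ) ^ (Nat.log 2 (P ^ (K + 1))) ≤ (P : ℝ) ^ (K + 1) := by
      exact_mod_cast Nat.pow_log_le_self 2 (pow_ne_zero _ (by omega))
    have h2 : (Nat.log 2 (P ^ (K + 1)) : ℝ) * Real.log 2 ≤ ((K : ℝ) + 1) * Real.log P := by
      have := Real.log_le_log (by positivity) h1
      rw [Real.log_pow, Real.log_pow] at this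
      push_cast at this
      exact this
    have h3 : (0.69 : ℝ) < Real.log 2 := by
      have := Real.log_two_gt_d9
      linarith
    have h4 : Real.log 16 ≤ Real.log P := Real.log_le_log (by norm_num) (by exact_mod_cast hP)
    have h5 : Real.log 16 = 4 * Real.log 2 := by
      rw [show (16 : ℝ) = 2 ^ (4 : ℕ) by norm_num, Real.log_pow]
      norm_num
    have h6 : (0 : ℝ) ≤ (Nat.log 2 (P ^ (K + 1)) : ℝ) := by positivity
    have h7 : (Nat.log 2 (P ^ (K + 1)) : ℝ) * 0.69 ≤ ((K : ℝ) + 1) * Real.log P :=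
      le_trans (mul_le_mul_of_nonneg_left h3.le h6) h2
    have h8 : Real.log P ≤ ((K : ℝ) + 1) * Real.log P := by
      have : (0 : ℝ) ≤ K := by positivity
      have h9 : (0 : ℝ) < Real.log P := by linarith
      nlinarith
    rw [hD]
    linarith
  have hx : Tendsto (fun n : ℕ => (n : ℝ)) atTop atTop := tendsto_natCast_atTop_atTop
  have t1 : ∀ᶠ x : ℝ in atTop, C * (D * Real.log x) ^ 4 ≤ x ^ (η / 4) := by
    have h1 := (isLittleO_log_rpow_rpow_atTop 4 (by positivity : (0 : ℝ) < η / 4)).bound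
      (c := 1 / (D ^ 4 * C)) (by positivity)
    filter_upwards [h1, eventually_ge_atTop 1] with x h2 h3
    have h4 : (0 : ℝ) ≤ Real.log x := Real.log_nonneg h3
    rw [Real.norm_of_nonneg (by positivity), Real.norm_of_nonneg (by positivity)] at h2
    have h5 : Real.log x ^ (4 : ℝ) = Real.log x ^ 4 := by
      rw [← Real.rpow_natCast]
      norm_num
    rw [h5] at h2
    calc C * (D * Real.log x) ^ 4 = D ^ 4 * C * Real.log x ^ 4 := by ring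
      _ ≤ D ^ 4 * C * (1 / (D ^ 4 * C) * x ^ (η / 4)) := by gcongr
      _ = x ^ (η / 4) := by field_simp
  have t2 : ∀ᶠ x : ℝ in atTop, 34 * (D * Real.log x) ≤ x ^ (η / 2) := by
    have h1 := (isLittleO_log_rpow_atTop (by positivity : (0 : ℝ) < η / 2)).bound
      (c := 1 / (34 * D)) (by positivity)
    filter_upwards [h1, eventually_ge_atTop 1] with x h2 h3
    have h4 : (0 : ℝ) ≤ Real.log x := Real.log_nonneg h3
    rw [Real.norm_of_nonneg h4, Real.norm_of_nonneg (by positivity)] at h2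
    calc 34 * (D * Real.log x) = 34 * D * Real.log x := by ring
      _ ≤ 34 * D * (1 / (34 * D) * x ^ (η / 2)) := by gcongr
      _ = x ^ (η / 2) := by field_simp
  have t3 : ∀ᶠ x : ℝ in atTop, (3 : ℝ) ≤ x ^ ε := (tendsto_rpow_atTop hε).eventually_ge_atTop 3
  obtain ⟨P₁, hP₁⟩ := eventually_atTop.1 ((hx.eventually t1).and ((hx.eventually t2).and
    (hx.eventually t3)))
  refine ⟨max P₁ 16, le_trans (by norm_num) (le_max_right _ _), fun P hP => ?_⟩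
  obtain ⟨a1, a2, a3⟩ := hP₁ P ((le_max_left _ _).trans hP)
  have h1 := hlog P ((le_max_right _ _).trans hP)
  refine ⟨le_trans ?_ a1, le_trans ?_ a2, a3⟩
  · gcongr
  · gcongr

/-- **Main theorem.** -/
theorem main (K : ℕ) (ε δ : ℝ) (hε : 0 < ε) (hδ : 0 < δ) : ∃ P₀ : ℕ, ∀ (P : ℕ) [NeZero P],
    P₀ ≤ P →
    ∀ f : ℕ → ℂ, (∀ n, ‖f n‖ ≤ 1) → ∃ E : Finset (DirichletCharacter ℂ P),
    (E.card : ℝ) ≤ (P : ℝ) ^ (1 - ε * δ / 8) ∧ ∀ χ, χ ∉ E → ∀ X L : ℕ, (P : ℝ) ^ ε ≤ X →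
    X ≤ P ^ K → 1 ≤ L → L ≤ X →
    (∀ A B : ℕ, X ≤ A → A ≤ B → B ≤ 2 * X →
      |∑ a ∈ Ico A B, ‖∑ n ∈ Ioc a (a + L), f n * χ (n : ZMod P)‖ ^ 2 -
        L * ∑ n ∈ Ico A B, ‖f n * χ (n : ZMod P)‖ ^ 2| ≤
        L * (√(X * L) + X * L / √P) * (X : ℝ) ^ δ) ∧
    (∀ A B : ℕ, X ≤ A → A ≤ B → B ≤ 3 * X →
      ‖∑ n ∈ Ico A B, ∑ k ∈ Icc 1 L,
        (f n * χ (n : ZMod P)) * conj (f (n + k) * χ ((n + k : ℕ) : ZMod P))‖ ≤
        (√(X * L) + X * L / √P) * (X : ℝ) ^ δ) := by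
  obtain ⟨η, hη⟩ : ∃ η : ℝ, η = ε * δ / 2 := ⟨_, rfl⟩
  have hη0 : 0 < η := by rw [hη]; positivity
  obtain ⟨C, hC, hexc⟩ := exceptional K η hη0
  obtain ⟨P₀, hP₀2, hgr⟩ := growth K C η (ε * (δ / 2)) hC hη0 (by positivity)
  refine ⟨P₀, ?_⟩
  intro P _ hP f hf
  obtain ⟨g1, g2, g3⟩ := hgr P hP
  obtain ⟨E, hE1, hE2⟩ := hexc P f (by omega) hf
  have hP2 : 2 ≤ P := by omega
  have hP0 : 0 < P := by omega
  have hPr : (0 : ℝ) < P := by exact_mod_cast hP0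
  obtain ⟨Λ, hΛ⟩ : ∃ Λ : ℝ, Λ = (Nat.log 2 (P ^ (K + 1)) : ℝ) + 4 := ⟨_, rfl⟩
  have hΛ0 : 0 < Λ := by rw [hΛ]; positivity
  refine ⟨E, ?_, ?_⟩
  · refine hE1.trans ?_
    rw [← hΛ] at g1 ⊢
    calc C * Λ ^ 4 * (P : ℝ) ^ (1 - η / 2)
        ≤ (P : ℝ) ^ (η / 4) * (P : ℝ) ^ (1 - η / 2) := by gcongr
      _ = (P : ℝ) ^ (1 - ε * δ / 8) := by
        rw [← Real.rpow_add hPr, hη]
        congr 1
        ring
  intro χ hχ X L hX hXK hL hLX
  have hXr : (0 : ℝ) < X := lt_of_lt_of_le (by positivity) hX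
  have hX0 : 0 < X := by exact_mod_cast hXr
  have hLr : (1 : ℝ) ≤ L := by exact_mod_cast hL
  have hPK : P ^ K ≤ P ^ (K + 1) := Nat.pow_le_pow_right hP0 (by omega)
  have hPK2 : 2 * P ^ K ≤ P ^ (K + 1) := by
    rw [pow_succ, mul_comm]
    exact Nat.mul_le_mul_left _ hP2
  obtain ⟨Y, hY⟩ : ∃ Y : ℝ, Y = √((X : ℝ) * L) := ⟨_, rfl⟩
  have hY0 : 0 ≤ Y := by rw [hY]; exact Real.sqrt_nonneg _
  have hY2 : Y ^ 2 = X * L := by rw [hY]; exact Real.sq_sqrt (by positivity)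
  obtain ⟨p, hp⟩ : ∃ p : ℝ, p = √(P : ℝ) := ⟨_, rfl⟩
  have hp0 : 0 < p := by rw [hp]; exact Real.sqrt_pos.2 hPr
  have hp2 : p ^ 2 = P := by rw [hp]; exact Real.sq_sqrt hPr.le
  obtain ⟨W, hW⟩ : ∃ W : ℝ, W = √((X : ℝ) * L) + X * L / √(P : ℝ) := ⟨_, rfl⟩
  have hWY : W = Y + Y ^ 2 / p := by rw [hW, ← hY, ← hp, hY2]
  have hW0 : 0 ≤ W := by rw [hWY]; positivity
  have hYW : Y ≤ W := by
    rw [hWY]
    have : 0 ≤ Y ^ 2 / p := by positivity
    linarith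
  rw [← hW]
  -- the correlations
  have key : ∀ j : ℕ, j ≤ L → ∀ A B : ℕ, X ≤ A → A ≤ B → B ≤ 3 * X →
      ‖∑ n ∈ Ico A B, ∑ l ∈ range j,
        (f n * χ (n : ZMod P)) * conj (f (n + (l + 1)) * χ ((n + (l + 1) : ℕ) : ZMod P))‖ ≤
        W * (X : ℝ) ^ (δ / 2) := by
    intro j hj A B hA hAB hB
    obtain ⟨s, hs1, hs2⟩ : ∃ s : ℕ, 2 ^ s ≤ X ∧ X < 2 ^ (s + 1) :=
      ⟨Nat.log 2 X, Nat.pow_log_le_self 2 hX0.ne', Nat.lt_pow_succ_log_self (by norm_num) X⟩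
    obtain ⟨q, hq1, hq2⟩ : ∃ q : ℕ, j ≤ 2 ^ q ∧ 2 ^ q ≤ 2 * L := by
      refine ⟨Nat.log 2 L + 1, ?_, ?_⟩
      · exact hj.trans (Nat.lt_pow_succ_log_self (by norm_num) L).le
      · rw [pow_succ]
        have := Nat.pow_log_le_self 2 (by omega : L ≠ 0)
        omega
    have hs : 2 ^ s ≤ P ^ (K + 1) := hs1.trans (hXK.trans hPK)
    have hq : 2 ^ q ≤ P ^ (K + 1) := by
      refine hq2.trans (le_trans ?_ hPK2)
      exact Nat.mul_le_mul_left _ (hLX.trans hXK)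
    have hQ := hE2 χ hχ s q hs hq
    have hs3 : s ≤ Nat.log 2 (P ^ (K + 1)) := Nat.le_log_of_pow_le (by norm_num) hs
    have hq3 : q ≤ Nat.log 2 (P ^ (K + 1)) := Nat.le_log_of_pow_le (by norm_num) hq
    obtain ⟨G, hG⟩ : ∃ G : ℕ → ℂ, ∀ n, G n = ∑ l ∈ range j,
        (f n * χ (n : ZMod P)) * conj (f (n + (l + 1)) * χ ((n + (l + 1) : ℕ) : ZMod P)) :=
      ⟨_, fun _ => rfl⟩
    have hrect : ∀ u ≤ 2 ^ (s + 3), ‖∑ i ∈ range u, G (2 ^ s + i)‖ ≤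
        17 * Λ * (W * (P : ℝ) ^ (η / 2)) := by
      intro u hu
      have h1 := rect_max (s + 3) q (xx f χ (2 ^ s)) u j hu hq1
      have h2 : ∑ i ∈ range u, G (2 ^ s + i) =
          ∑ i ∈ range u, ∑ l ∈ range j, xx f χ (2 ^ s) i l := by
        refine sum_congr rfl fun i _ => ?_
        rw [hG]
        rfl
      rw [h2]
      have h3 : ‖∑ i ∈ range u, ∑ l ∈ range j, xx f χ (2 ^ s) i l‖ ^ 2 ≤
          (17 * Λ * (W * (P : ℝ) ^ (η / 2))) ^ 2 := by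
        refine h1.trans ?_
        have e1 : ((s + 3 : ℕ) : ℝ) + 1 ≤ Λ := by
          have : (s : ℝ) ≤ Nat.log 2 (P ^ (K + 1)) := by exact_mod_cast hs3
          rw [hΛ]
          push_cast
          linarith
        have e2 : (q : ℝ) + 1 ≤ Λ := by
          have : (q : ℝ) ≤ Nat.log 2 (P ^ (K + 1)) := by exact_mod_cast hq3
          rw [hΛ]
          linarith
        have e3 : ((P : ℝ) ^ (η / 2)) ^ 2 = (P : ℝ) ^ η := by
          rw [← Real.rpow_natCast, ← Real.rpow_mul hPr.le]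
          congr 1
          push_cast
          ring
        have h4 : (2 : ℝ) ^ s ≤ X := by exact_mod_cast hs1
        have h5 : (2 : ℝ) ^ q ≤ 2 * L := by exact_mod_cast hq2
        have e5 : (2 : ℝ) ^ (s + 3) * 2 ^ q ≤ 16 * Y ^ 2 := by
          rw [hY2]
          calc (2 : ℝ) ^ (s + 3) * 2 ^ q = 8 * (2 ^ s * 2 ^ q) := by ring
            _ ≤ 8 * (X * (2 * L)) := by gcongr
            _ = _ := by ring
        have e6 : (((2 ^ s + 2 ^ (s + 3)) * 2 ^ q : ℕ) : ℝ) ≤ 18 * Y ^ 2 := by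
          rw [hY2]
          push_cast
          calc ((2 : ℝ) ^ s + 2 ^ (s + 3)) * 2 ^ q = 9 * (2 ^ s * 2 ^ q) := by ring
            _ ≤ 9 * (X * (2 * L)) := by gcongr
            _ = _ := by ring
        have e7 : 16 * Y ^ 2 * (18 * Y ^ 2 / P + 1) ≤ 289 * W ^ 2 := by
          rw [hWY, ← hp2]
          have e8 : 16 * Y ^ 2 * (18 * Y ^ 2 / p ^ 2 + 1) = 16 * Y ^ 2 + 288 * (Y ^ 2 / p) ^ 2 := by
            field_simp
            ring
          rw [e8]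
          have e9 : 0 ≤ Y ^ 2 / p := by positivity
          nlinarith [mul_nonneg hY0 e9]
        calc (((s + 3 : ℕ) : ℝ) + 1) * ((q : ℝ) + 1) * Q2 (s + 3) q (xx f χ (2 ^ s))
            ≤ Λ * Λ * (2 ^ (s + 3) * 2 ^ q *
              ((((2 ^ s + 2 ^ (s + 3)) * 2 ^ q : ℕ) : ℝ) / P + 1) * (P : ℝ) ^ η) := by
              have := Q2_nonneg (s + 3) q (xx f χ (2 ^ s))
              gcongr
          _ ≤ Λ * Λ * (16 * Y ^ 2 * (18 * Y ^ 2 / P + 1) * (P : ℝ) ^ η) := by gcongr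
          _ ≤ Λ * Λ * (289 * W ^ 2 * (P : ℝ) ^ η) := by gcongr
          _ = _ := by
            rw [mul_pow, mul_pow, mul_pow, e3]
            ring
      exact (abs_le_of_sq_le_sq' h3 (by positivity)).2
    rw [sum_congr rfl fun n _ => (hG n).symm]
    have h1 := ico_le G (2 ^ s) A B (2 ^ (s + 3)) (hs1.trans hA) hAB (by
      have h2 : 2 ^ (s + 3) = 8 * 2 ^ s := by ring
      have h3 : 2 ^ (s + 1) = 2 * 2 ^ s := by ring
      omega) _ hrect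
    refine h1.trans ?_
    have h2 : (P : ℝ) ^ (ε * (δ / 2)) ≤ (X : ℝ) ^ (δ / 2) := by
      rw [Real.rpow_mul hPr.le]
      exact Real.rpow_le_rpow (by positivity) hX (by positivity)
    have h3 : (P : ℝ) ^ (η / 2) * (P : ℝ) ^ (η / 2) = (P : ℝ) ^ (ε * (δ / 2)) := by
      rw [← Real.rpow_add hPr, hη]
      congr 1
      ring
    calc 2 * (17 * Λ * (W * (P : ℝ) ^ (η / 2)))
        = W * ((34 * Λ) * (P : ℝ) ^ (η / 2)) := by ring
      _ ≤ W * ((P : ℝ) ^ (η / 2) * (P : ℝ) ^ (η / 2)) := by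
          rw [← hΛ] at g2
          gcongr
      _ ≤ W * (X : ℝ) ^ (δ / 2) := by
          rw [h3]
          gcongr
  have hX3 : (3 : ℝ) ≤ (X : ℝ) ^ (δ / 2) := by
    refine g3.trans ?_
    rw [Real.rpow_mul hPr.le]
    exact Real.rpow_le_rpow (by positivity) hX (by positivity)
  have hXX : (X : ℝ) ^ (δ / 2) * (X : ℝ) ^ (δ / 2) = (X : ℝ) ^ δ := by
    rw [← Real.rpow_add hXr]
    congr 1
    ring
  have hsL : (L : ℝ) ≤ W := by
    refine le_trans ?_ hYW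
    rw [hY]
    apply Real.le_sqrt_of_sq_le
    have : (L : ℝ) ≤ X := by exact_mod_cast hLX
    nlinarith
  refine ⟨?_, ?_⟩
  · intro A B hA hAB hB
    obtain ⟨g, hg⟩ : ∃ g : ℕ → ℂ, g = fun n => f n * χ (n : ZMod P) := ⟨_, rfl⟩
    have hgn : ∀ n : ℕ, f n * χ (n : ZMod P) = g n := fun n => by rw [hg]
    have hg1 : ∀ n, ‖g n‖ ≤ 1 := by
      intro n
      rw [hg]
      simp only [norm_mul]
      exact mul_le_one₀ (hf n) (norm_nonneg _) (DirichletCharacter.norm_le_one χ _)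
    have hR : ∀ i < L, ‖∑ n ∈ Ico (A + (1 + i)) (B + (1 + i)), ∑ l ∈ range (L - 1 - i),
        g n * conj (g (n + (l + 1)))‖ ≤ W * (X : ℝ) ^ (δ / 2) := by
      intro i hi
      have h2 := key (L - 1 - i) (by omega) (A + (1 + i)) (B + (1 + i)) (by omega) (by omega)
        (by omega)
      simp only [hgn] at h2
      exact h2
    have h1 := var_bound g hg1 A B L hAB _ hR
    simp only [hgn]
    refine h1.trans ?_
    have hL2 : (L : ℝ) ^ 2 ≤ L * W := by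
      rw [sq]
      gcongr
    have h2 : (L : ℝ) * W * (1 + 2 * (X : ℝ) ^ (δ / 2)) ≤ L * W * (X : ℝ) ^ δ := by
      rw [← hXX]
      have h3 : 1 + 2 * (X : ℝ) ^ (δ / 2) ≤ (X : ℝ) ^ (δ / 2) * (X : ℝ) ^ (δ / 2) := by nlinarith
      gcongr
    nlinarith
  · intro A B hA hAB hB
    have h1 := key L le_rfl A B hA hAB hB
    have h2 : ∀ n : ℕ, ∑ k ∈ Icc 1 L,
        (f n * χ (n : ZMod P)) * conj (f (n + k) * χ ((n + k : ℕ) : ZMod P)) =
        ∑ l ∈ range L,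
        (f n * χ (n : ZMod P)) * conj (f (n + (l + 1)) * χ ((n + (l + 1) : ℕ) : ZMod P)) := by
      intro n
      have h3 : Icc 1 L = Ico 1 (L + 1) := by
        ext k
        simp only [mem_Icc, mem_Ico]
        omega
      rw [h3, sum_Ico_eq_sum_range]
      have h4 : L + 1 - 1 = L := by omega
      rw [h4]
      refine sum_congr rfl fun l _ => ?_
      rw [Nat.add_comm 1 l]
    rw [sum_congr rfl fun n _ => h2 n]
    refine h1.trans ?_
    have h3 : (X : ℝ) ^ (δ / 2) ≤ (X : ℝ) ^ δ := by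
      rw [← hXX]
      nlinarith
    gcongr

end Pool.Agent.L0h75.CV
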