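import Mathlib

/-!
# A maximal inequality for rectangular sums
-/

set_option autoImplicit false

namespace Pool.Agent.L0h75.CV

open Finset

lemma sum_pair (F : ℕ → ℂ) (n : ℕ) :
    ∑ i ∈ range n, (F (2 * i) + F (2 * i + 1)) = ∑ i ∈ range (2 * n), F i := by
  induction n with
  | zero => simp
  | succ n ih =>
    rw [sum_range_succ, ih, show 2 * (n + 1) = 2 * n + 1 + 1 by ring, sum_range_succ,
      sum_range_succ]
    ring

lemma sum_blocks (G : ℕ → ℝ) (b m : ℕ) :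
    ∑ i ∈ range m, ∑ j ∈ range b, G (i * b + j) = ∑ t ∈ range (m * b), G t := by
  induction m with
  | zero => simp
  | succ m ih => rw [sum_range_succ, ih, Nat.succ_mul, sum_range_add]

lemma conv2 (m : ℝ) (hm : 0 < m) (x y : ℂ) :
    ‖x + y‖ ^ 2 ≤ ((m + 1) / m) * ‖x‖ ^ 2 + (m + 1) * ‖y‖ ^ 2 := by
  have h0 : ‖x + y‖ ^ 2 ≤ (‖x‖ + ‖y‖) ^ 2 := by
    have := norm_add_le x y
    gcongr
  have h1 : 0 ≤ (‖x‖ - m * ‖y‖) ^ 2 / m := by positivity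
  have h2 : (‖x‖ - m * ‖y‖) ^ 2 / m = ‖x‖ ^ 2 / m - 2 * ‖x‖ * ‖y‖ + m * ‖y‖ ^ 2 := by
    field_simp
    ring
  have h3 : ((m + 1) / m) * ‖x‖ ^ 2 = ‖x‖ ^ 2 + ‖x‖ ^ 2 / m := by field_simp
  rw [h3]
  nlinarith

/-- sums of squares of dyadic block sums -/
noncomputable def Qc (l : ℕ) (F : ℕ → ℂ) : ℝ :=
  ∑ k ∈ range (l + 1), ∑ i ∈ range (2 ^ (l - k)), ‖∑ j ∈ range (2 ^ k), F (i * 2 ^ k + j)‖ ^ 2

lemma dyadic_max (l : ℕ) : ∀ (F : ℕ → ℂ) (j : ℕ), j ≤ 2 ^ l →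
    ‖∑ i ∈ range j, F i‖ ^ 2 ≤ ((l : ℝ) + 1) * Qc l F := by
  induction l with
  | zero =>
    intro F j hj
    rw [pow_zero] at hj
    have hQ : Qc 0 F = ‖F 0‖ ^ 2 := by simp [Qc]
    rw [hQ]
    rcases Nat.eq_zero_or_pos j with h | h
    · subst h; simp
    · have : j = 1 := by omega
      subst this; simp
  | succ l ih =>
    intro F j hj
    obtain ⟨G, hG⟩ : ∃ G : ℕ → ℂ, G = fun i => F (2 * i) + F (2 * i + 1) := ⟨_, rfl⟩
    obtain ⟨j', e, he, hje⟩ : ∃ j' e, e < 2 ∧ j = 2 * j' + e :=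
      ⟨j / 2, j % 2, Nat.mod_lt _ (by norm_num), by omega⟩
    have hj' : j' ≤ 2 ^ l := by rw [pow_succ] at hj; omega
    have h1 := ih G j' hj'
    have hsumG : ∑ i ∈ range j', G i = ∑ i ∈ range (2 * j'), F i := by rw [hG]; exact sum_pair F j'
    have hQ : Qc (l + 1) F = ∑ i ∈ range (2 ^ (l + 1)), ‖F i‖ ^ 2 + Qc l G := by
      unfold Qc
      rw [sum_range_succ']
      rw [add_comm]
      congr 1
      · simp
      · apply sum_congr rfl
        intro k hk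
        rw [mem_range] at hk
        rw [show l + 1 - (k + 1) = l - k by omega]
        apply sum_congr rfl
        intro i _
        congr 2
        rw [hG, show 2 ^ (k + 1) = 2 * 2 ^ k by ring, ← sum_pair]
        apply sum_congr rfl
        intro j _
        simp only
        congr 2 <;> ring
    have hQ0 : 0 ≤ Qc l G := sum_nonneg fun _ _ => sum_nonneg fun _ _ => by positivity
    have hF0 : 0 ≤ ∑ i ∈ range (2 ^ (l + 1)), ‖F i‖ ^ 2 := sum_nonneg fun _ _ => by positivity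
    rw [hQ]
    push_cast
    obtain ⟨y, hy⟩ : ∃ y : ℂ, y = ∑ i ∈ range j, F i - ∑ i ∈ range (2 * j'), F i := ⟨_, rfl⟩
    have hy4 : ‖y‖ ^ 2 ≤ ∑ i ∈ range (2 ^ (l + 1)), ‖F i‖ ^ 2 := by
      rcases Nat.eq_zero_or_pos e with h | h
      · have : j = 2 * j' := by omega
        rw [hy, this, sub_self]
        simpa using hF0
      · have h2 : j = 2 * j' + 1 := by omega
        rw [hy, h2, sum_range_succ, add_sub_cancel_left]
        exact single_le_sum (f := fun i => ‖F i‖ ^ 2) (fun i _ => by positivity)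
          (mem_range.mpr (by omega))
    have h3 := conv2 ((l:ℝ) + 1) (by positivity) (∑ i ∈ range (2 * j'), F i) y
    have h4 : ∑ i ∈ range (2 * j'), F i + y = ∑ i ∈ range j, F i := by rw [hy]; ring
    rw [h4, ← hsumG] at h3
    have hl : (0:ℝ) < (l:ℝ) + 1 := by positivity
    calc ‖∑ i ∈ range j, F i‖ ^ 2 ≤ (((l:ℝ) + 1 + 1) / ((l:ℝ) + 1)) * ‖∑ i ∈ range j', G i‖ ^ 2 +
          ((l:ℝ) + 1 + 1) * ‖y‖ ^ 2 := h3
      _ ≤ (((l:ℝ) + 1 + 1) / ((l:ℝ) + 1)) * (((l:ℝ) + 1) * Qc l G) +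
          ((l:ℝ) + 1 + 1) * ∑ i ∈ range (2 ^ (l + 1)), ‖F i‖ ^ 2 := by gcongr
      _ = _ := by
          field_simp
          ring

/-- sums of squares of the sums over dyadic rectangles -/
noncomputable def Q2 (r q : ℕ) (x : ℕ → ℕ → ℂ) : ℝ :=
  ∑ k ∈ range (r + 1), ∑ i ∈ range (2 ^ (r - k)), ∑ k' ∈ range (q + 1),
    ∑ i' ∈ range (2 ^ (q - k')),
      ‖∑ b ∈ range (2 ^ k'), ∑ a ∈ range (2 ^ k), x (i * 2 ^ k + a) (i' * 2 ^ k' + b)‖ ^ 2

lemma Q2_nonneg (r q : ℕ) (x : ℕ → ℕ → ℂ) : 0 ≤ Q2 r q x :=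
  sum_nonneg fun _ _ => sum_nonneg fun _ _ => sum_nonneg fun _ _ => sum_nonneg fun _ _ => by
    positivity

/-- the maximal inequality for rectangles -/
lemma rect_max (r q : ℕ) (x : ℕ → ℕ → ℂ) (u j : ℕ) (hu : u ≤ 2 ^ r) (hj : j ≤ 2 ^ q) :
    ‖∑ i ∈ range u, ∑ l ∈ range j, x i l‖ ^ 2 ≤ ((r : ℝ) + 1) * ((q : ℝ) + 1) * Q2 r q x := by
  have h1 := dyadic_max r (fun i => ∑ l ∈ range j, x i l) u hu
  refine h1.trans ?_
  rw [mul_assoc]
  refine mul_le_mul_of_nonneg_left ?_ (by positivity)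
  unfold Qc Q2
  rw [mul_sum]
  refine sum_le_sum fun k _ => ?_
  rw [mul_sum]
  refine sum_le_sum fun i _ => ?_
  have h2 : ∑ a ∈ range (2 ^ k), ∑ l ∈ range j, x (i * 2 ^ k + a) l =
      ∑ l ∈ range j, ∑ a ∈ range (2 ^ k), x (i * 2 ^ k + a) l := sum_comm
  rw [h2]
  exact dyadic_max q (fun l => ∑ a ∈ range (2 ^ k), x (i * 2 ^ k + a) l) j hj

end Pool.Agent.L0h75.CV
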