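import Pool.Agent.L0h75.CV.Max
import Pool.Agent.Helper112.Arith

/-!
# The second moment over the characters
-/

set_option autoImplicit false

namespace Pool.Agent.L0h75.CV

open Finset
open scoped ComplexConjugate Classical

variable {P : ℕ} [NeZero P]

lemma conj_char (χ : DirichletCharacter ℂ P) {b : ZMod P} (hb : IsUnit b) :
    conj (χ b) = χ b⁻¹ := by
  have h1 : χ b⁻¹ * χ b = 1 := by
    rw [← map_mul, ZMod.inv_mul_of_unit _ hb, map_one]
  have h2 : ‖χ b‖ = 1 := by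
    obtain ⟨u, rfl⟩ := hb
    exact DirichletCharacter.unit_norm_eq_one χ u
  have h3 : conj (χ b) * χ b = 1 := by
    rw [mul_comm, Complex.mul_conj, Complex.normSq_eq_norm_sq, h2]
    norm_num
  have h4 : χ b ≠ 0 := by
    intro h
    rw [h, norm_zero] at h2
    exact zero_ne_one h2
  exact mul_right_cancel₀ h4 (h3.trans h1.symm)

lemma orth (a b : ZMod P) :
    ‖∑ χ : DirichletCharacter ℂ P, χ a * conj (χ b)‖ ≤ if a = b then (P : ℝ) else 0 := by
  by_cases hb : IsUnit b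
  · have h1 : ∑ χ : DirichletCharacter ℂ P, χ a * conj (χ b) =
        ∑ χ : DirichletCharacter ℂ P, χ b⁻¹ * χ a := by
      refine sum_congr rfl fun χ _ => ?_
      rw [conj_char χ hb, mul_comm]
    rw [h1, DirichletCharacter.sum_char_inv_mul_char_eq ℂ hb a]
    by_cases hab : a = b
    · rw [if_pos hab, if_pos hab.symm, Complex.norm_natCast]
      exact_mod_cast Nat.totient_le P
    · rw [if_neg hab, if_neg (fun h => hab h.symm), norm_zero]
  · have h1 : ∑ χ : DirichletCharacter ℂ P, χ a * conj (χ b) = 0 := by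
      refine sum_eq_zero fun χ _ => ?_
      rw [MulChar.map_nonunit χ hb, map_zero, mul_zero]
    rw [h1, norm_zero]
    split_ifs
    · positivity
    · exact le_rfl

/-- the second moment of a bilinear sum -/
lemma second_moment {ι : Type} (S : Finset ι) (c : ι → ℂ) (hc : ∀ i ∈ S, ‖c i‖ ≤ 1)
    (a b : ι → ZMod P) :
    ∑ χ : DirichletCharacter ℂ P, ‖∑ i ∈ S, c i * (χ (a i) * conj (χ (b i)))‖ ^ 2 ≤
      P * ∑ i ∈ S, ∑ j ∈ S, if a i * b j = b i * a j then (1 : ℝ) else 0 := by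
  have h1 : ((∑ χ : DirichletCharacter ℂ P,
      ‖∑ i ∈ S, c i * (χ (a i) * conj (χ (b i)))‖ ^ 2 : ℝ) : ℂ) =
      ∑ i ∈ S, ∑ j ∈ S, (c i * conj (c j)) *
        ∑ χ : DirichletCharacter ℂ P, χ (a i * b j) * conj (χ (b i * a j)) := by
    push_cast
    have h2 : ∀ χ : DirichletCharacter ℂ P,
        (‖∑ i ∈ S, c i * (χ (a i) * conj (χ (b i)))‖ : ℂ) ^ 2 =
        ∑ i ∈ S, ∑ j ∈ S, (c i * conj (c j)) * (χ (a i * b j) * conj (χ (b i * a j))) := by
      intro χ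
      rw [← Complex.mul_conj', map_sum, sum_mul_sum]
      refine sum_congr rfl fun i _ => sum_congr rfl fun j _ => ?_
      simp only [map_mul, Complex.conj_conj]
      ring
    rw [sum_congr rfl fun χ _ => h2 χ, sum_comm]
    refine sum_congr rfl fun i _ => ?_
    rw [sum_comm]
    refine sum_congr rfl fun j _ => ?_
    rw [mul_sum]
  have h3 : 0 ≤ ∑ χ : DirichletCharacter ℂ P,
      ‖∑ i ∈ S, c i * (χ (a i) * conj (χ (b i)))‖ ^ 2 := sum_nonneg fun _ _ => by positivity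
  rw [← abs_of_nonneg h3, ← Real.norm_eq_abs, ← Complex.norm_real, h1, mul_sum]
  refine (norm_sum_le _ _).trans (sum_le_sum fun i hi => ?_)
  rw [mul_sum]
  refine (norm_sum_le _ _).trans (sum_le_sum fun j hj => ?_)
  rw [norm_mul, norm_mul, RCLike.norm_conj]
  have h4 := orth (P := P) (a i * b j) (b i * a j)
  have h5 : ‖c i‖ * ‖c j‖ ≤ 1 := mul_le_one₀ (hc i hi) (norm_nonneg _) (hc j hj)
  calc ‖c i‖ * ‖c j‖ * ‖∑ χ : DirichletCharacter ℂ P, χ (a i * b j) * conj (χ (b i * a j))‖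
      ≤ 1 * ‖∑ χ : DirichletCharacter ℂ P, χ (a i * b j) * conj (χ (b i * a j))‖ :=
        mul_le_mul_of_nonneg_right h5 (norm_nonneg _)
    _ ≤ _ := by
      rw [one_mul]
      refine h4.trans (le_of_eq ?_)
      split_ifs <;> simp

/-- the twisted product -/
noncomputable def xx (f : ℕ → ℂ) (χ : DirichletCharacter ℂ P) (N i l : ℕ) : ℂ :=
  (f (N + i) * χ ((N + i : ℕ) : ZMod P)) * conj (f (N + i + (l + 1)) * χ ((N + i + (l + 1) : ℕ) : ZMod P))

/-- proportional pairs -/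
noncomputable def II (P N i l i' l' : ℕ) : ℝ :=
  if (N + i) * (l' + 1) ≡ (N + i') * (l + 1) [MOD P] then 1 else 0

omit [NeZero P] in
lemma II_nonneg (P N i l i' l' : ℕ) : 0 ≤ II P N i l i' l' := by
  unfold II
  split_ifs <;> norm_num

noncomputable def JJ (P N r q i l : ℕ) : ℝ :=
  ∑ i' ∈ range (2 ^ r), ∑ l' ∈ range (2 ^ q), II P N i l i' l'

/-- a block -/
lemma block (f : ℕ → ℂ) (hf : ∀ n, ‖f n‖ ≤ 1) (N r q : ℕ)
    (k i k' i' : ℕ) (hi : i * 2 ^ k + 2 ^ k ≤ 2 ^ r) (hi' : i' * 2 ^ k' + 2 ^ k' ≤ 2 ^ q) :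
    ∑ χ : DirichletCharacter ℂ P, ‖∑ b ∈ range (2 ^ k'), ∑ a ∈ range (2 ^ k),
      xx f χ N (i * 2 ^ k + a) (i' * 2 ^ k' + b)‖ ^ 2 ≤
    P * ∑ b ∈ range (2 ^ k'), ∑ a ∈ range (2 ^ k), JJ P N r q (i * 2 ^ k + a) (i' * 2 ^ k' + b) := by
  have h1 := second_moment (P := P) (range (2 ^ k') ×ˢ range (2 ^ k))
    (fun p => f (N + (i * 2 ^ k + p.2)) *
      conj (f (N + (i * 2 ^ k + p.2) + (i' * 2 ^ k' + p.1 + 1))))
    (fun p _ => by
      rw [norm_mul, RCLike.norm_conj]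
      exact mul_le_one₀ (hf _) (norm_nonneg _) (hf _))
    (fun p => ((N + (i * 2 ^ k + p.2) : ℕ) : ZMod P))
    (fun p => ((N + (i * 2 ^ k + p.2) + (i' * 2 ^ k' + p.1 + 1) : ℕ) : ZMod P))
  have h2 : ∀ χ : DirichletCharacter ℂ P, ∑ b ∈ range (2 ^ k'), ∑ a ∈ range (2 ^ k),
      xx f χ N (i * 2 ^ k + a) (i' * 2 ^ k' + b) =
      ∑ p ∈ range (2 ^ k') ×ˢ range (2 ^ k), (f (N + (i * 2 ^ k + p.2)) *
      conj (f (N + (i * 2 ^ k + p.2) + (i' * 2 ^ k' + p.1 + 1)))) *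
      (χ ((N + (i * 2 ^ k + p.2) : ℕ) : ZMod P) *
      conj (χ ((N + (i * 2 ^ k + p.2) + (i' * 2 ^ k' + p.1 + 1) : ℕ) : ZMod P))) := by
    intro χ
    rw [sum_product]
    refine sum_congr rfl fun b _ => sum_congr rfl fun a _ => ?_
    unfold xx
    rw [map_mul]
    ring
  rw [sum_congr rfl fun χ _ => by rw [h2 χ]]
  refine h1.trans (mul_le_mul_of_nonneg_left ?_ (by positivity))
  rw [sum_product]
  refine sum_le_sum fun b hb => sum_le_sum fun a ha => ?_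
  rw [mem_range] at hb ha
  have h3 : ∀ p ∈ range (2 ^ k') ×ˢ range (2 ^ k),
      (if ((N + (i * 2 ^ k + a) : ℕ) : ZMod P) *
          ((N + (i * 2 ^ k + p.2) + (i' * 2 ^ k' + p.1 + 1) : ℕ) : ZMod P) =
          ((N + (i * 2 ^ k + a) + (i' * 2 ^ k' + b + 1) : ℕ) : ZMod P) *
          ((N + (i * 2 ^ k + p.2) : ℕ) : ZMod P) then (1 : ℝ) else 0) ≤
      II P N (i * 2 ^ k + a) (i' * 2 ^ k' + b) (i * 2 ^ k + p.2) (i' * 2 ^ k' + p.1) := by
    intro p hp
    obtain ⟨hp1, hp2⟩ := mem_product.1 hp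
    rw [mem_range] at hp1 hp2
    unfold II
    split_ifs with h4 h5
    · exact le_rfl
    · exfalso
      apply h5
      have h6 : (((N + (i * 2 ^ k + a)) * (i' * 2 ^ k' + p.1 + 1) : ℕ) : ZMod P) =
          (((N + (i * 2 ^ k + p.2)) * (i' * 2 ^ k' + b + 1) : ℕ) : ZMod P) := by
        push_cast at h4 ⊢
        linear_combination h4
      exact (ZMod.natCast_eq_natCast_iff _ _ P).1 h6
    · norm_num
    · exact le_rfl
  refine (sum_le_sum h3).trans ?_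
  rw [sum_product, sum_comm]
  unfold JJ
  have h7 : ∀ u ∈ range (2 ^ k), ∑ v ∈ range (2 ^ k'),
      II P N (i * 2 ^ k + a) (i' * 2 ^ k' + b) (i * 2 ^ k + u) (i' * 2 ^ k' + v) ≤
      ∑ l' ∈ range (2 ^ q), II P N (i * 2 ^ k + a) (i' * 2 ^ k' + b) (i * 2 ^ k + u) l' := by
    intro u _
    rw [← sum_image (f := fun l' => II P N (i * 2 ^ k + a) (i' * 2 ^ k' + b) (i * 2 ^ k + u) l')
      (g := fun v => i' * 2 ^ k' + v) (fun x _ y _ h => Nat.add_left_cancel h)]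
    refine sum_le_sum_of_subset_of_nonneg ?_ (fun _ _ _ => II_nonneg _ _ _ _ _ _)
    intro y hy
    obtain ⟨v, hv, rfl⟩ := mem_image.1 hy
    rw [mem_range] at hv ⊢
    omega
  refine (sum_le_sum h7).trans ?_
  rw [← sum_image (f := fun u' => ∑ l' ∈ range (2 ^ q),
      II P N (i * 2 ^ k + a) (i' * 2 ^ k' + b) u' l')
      (g := fun u => i * 2 ^ k + u) (fun x _ y _ h => Nat.add_left_cancel h)]
  refine sum_le_sum_of_subset_of_nonneg ?_ (fun _ _ _ => sum_nonneg fun _ _ =>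
    II_nonneg _ _ _ _ _ _)
  intro y hy
  obtain ⟨v, hv, rfl⟩ := mem_image.1 hy
  rw [mem_range] at hv ⊢
  omega

/-- the number of the proportional pairs -/
lemma count (ε : ℝ) (hε : 0 < ε) : ∃ C : ℝ, 0 < C ∧ ∀ (N r q P : ℕ), 1 ≤ N → 1 ≤ P →
    ∑ i ∈ range (2 ^ r), ∑ l ∈ range (2 ^ q), JJ P N r q i l ≤
      C * (((N + 2 ^ r) * 2 ^ q : ℕ) : ℝ) ^ ε * ((((N + 2 ^ r) * 2 ^ q : ℕ) : ℝ) / P + 1) *
        (2 ^ r * 2 ^ q) := by
  obtain ⟨C, hC, h⟩ := Pool.Agent.Helper112.divisor_bound ε hε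
  refine ⟨C, hC, fun N r q P hN hP => ?_⟩
  obtain ⟨M, hM⟩ : ∃ M : ℕ, M = (N + 2 ^ r) * 2 ^ q := ⟨_, rfl⟩
  rw [← hM]
  have hP0 : (0 : ℝ) < P := by exact_mod_cast hP
  unfold JJ
  have h1 : ∑ i ∈ range (2 ^ r), ∑ l ∈ range (2 ^ q), ∑ i' ∈ range (2 ^ r),
      ∑ l' ∈ range (2 ^ q), II P N i l i' l' =
      ∑ l ∈ range (2 ^ q), ∑ i' ∈ range (2 ^ r), ∑ i ∈ range (2 ^ r),
      ∑ l' ∈ range (2 ^ q), II P N i l i' l' := by
    rw [sum_comm]
    refine sum_congr rfl fun l _ => ?_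
    rw [sum_comm]
  rw [h1]
  have h2 : ∀ l ∈ range (2 ^ q), ∀ i' ∈ range (2 ^ r), ∑ i ∈ range (2 ^ r),
      ∑ l' ∈ range (2 ^ q), II P N i l i' l' ≤ C * (M : ℝ) ^ ε * ((M : ℝ) / P + 1) := by
    intro l hl i' hi'
    obtain ⟨m, hm⟩ : ∃ m : ℕ, m = (N + i') * (l + 1) := ⟨_, rfl⟩
    obtain ⟨V, hV⟩ : ∃ V : Finset ℕ, V = (Icc 1 M).filter (fun v => v % P = m % P) := ⟨_, rfl⟩
    have h3 : (V.card : ℝ) ≤ (M : ℝ) / P + 1 := by
      have h4 : V.card ≤ M / P + 1 := by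
        have h5 : V.card ≤ (range (M / P + 1)).card := by
          refine card_le_card_of_injOn (fun v => v / P) ?_ ?_
          · intro v hv
            rw [mem_coe, hV, mem_filter, mem_Icc] at hv
            rw [mem_coe, mem_range]
            have := Nat.div_le_div_right (c := P) hv.1.2
            show v / P < _
            omega
          · intro v hv v' hv' hvv
            rw [mem_coe, hV, mem_filter, mem_Icc] at hv hv'
            have e1 := Nat.div_add_mod v P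
            have e2 := Nat.div_add_mod v' P
            have e3 : v / P = v' / P := hvv
            rw [← e1, ← e2, e3, hv.2, hv'.2]
        rwa [card_range] at h5
      calc (V.card : ℝ) ≤ ((M / P + 1 : ℕ) : ℝ) := by exact_mod_cast h4
        _ = ((M / P : ℕ) : ℝ) + 1 := by push_cast; ring
        _ ≤ (M : ℝ) / P + 1 := by
          have := Nat.cast_div_le (α := ℝ) (m := M) (n := P)
          linarith
    have h5 : ∑ i ∈ range (2 ^ r), ∑ l' ∈ range (2 ^ q), II P N i l i' l' ≤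
        ((∑ v ∈ V, v.divisors.card : ℕ) : ℝ) := by
      rw [← sum_product']
      unfold II
      rw [sum_boole, Nat.cast_le, ← card_sigma]
      refine card_le_card_of_injOn (fun p => (⟨(N + p.1) * (p.2 + 1), N + p.1⟩ : Σ _ : ℕ, ℕ)) ?_ ?_
      · intro p hp
        obtain ⟨hp1, hp2⟩ := mem_filter.1 hp
        obtain ⟨hp3, hp4⟩ := mem_product.1 hp1
        rw [mem_range] at hp3 hp4
        rw [mem_coe, mem_sigma]
        have e1 : 1 ≤ (N + p.1) * (p.2 + 1) := Nat.mul_pos (by omega) (by omega)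
        have e2 : (N + p.1) * (p.2 + 1) ≤ M := by
          rw [hM]
          exact Nat.mul_le_mul (by omega) hp4
        refine ⟨?_, ?_⟩
        · rw [hV, mem_filter, mem_Icc, hm]
          exact ⟨⟨e1, e2⟩, hp2⟩
        · rw [Nat.mem_divisors]
          exact ⟨dvd_mul_right _ _, Nat.one_le_iff_ne_zero.1 e1⟩
      · intro p hp p' hp' hpp
        simp only [Sigma.mk.injEq, heq_eq_eq] at hpp
        obtain ⟨e1, e2⟩ := hpp
        have e3 : p.1 = p'.1 := Nat.add_left_cancel e2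
        rw [← e2] at e1
        have e4 : p.2 + 1 = p'.2 + 1 :=
          Nat.eq_of_mul_eq_mul_left (by omega : 0 < N + p.1) e1
        exact Prod.ext e3 (by omega)
    refine h5.trans ?_
    push_cast
    have h6 : ∀ v ∈ V, (v.divisors.card : ℝ) ≤ C * (M : ℝ) ^ ε := by
      intro v hv
      rw [hV, mem_filter, mem_Icc] at hv
      refine (h v hv.1.1).trans ?_
      have e1 : (v : ℝ) ≤ M := by exact_mod_cast hv.1.2
      gcongr
    refine (sum_le_sum h6).trans ?_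
    rw [sum_const, nsmul_eq_mul, mul_comm]
    have : (0 : ℝ) ≤ C * (M : ℝ) ^ ε := by positivity
    exact mul_le_mul_of_nonneg_left h3 this
  refine (sum_le_sum fun l hl => sum_le_sum fun i' hi' => h2 l hl i' hi').trans (le_of_eq ?_)
  rw [sum_const, sum_const, card_range, card_range, nsmul_eq_mul, nsmul_eq_mul]
  push_cast
  ring

/-- the second moment of the maximal function -/
theorem moment (ε : ℝ) (hε : 0 < ε) : ∃ C : ℝ, 0 < C ∧ ∀ (P : ℕ) [NeZero P] (N r q : ℕ), 1 ≤ N →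
    ∀ f : ℕ → ℂ, (∀ n, ‖f n‖ ≤ 1) →
    ∑ χ : DirichletCharacter ℂ P, Q2 r q (xx f χ N) ≤
      ((r : ℝ) + 1) * ((q : ℝ) + 1) * (P * (C * (((N + 2 ^ r) * 2 ^ q : ℕ) : ℝ) ^ ε *
        ((((N + 2 ^ r) * 2 ^ q : ℕ) : ℝ) / P + 1) * (2 ^ r * 2 ^ q))) := by
  obtain ⟨C, hC, h⟩ := count ε hε
  refine ⟨C, hC, ?_⟩
  intro P _ N r q hN f hf
  have h0 := h N r q P hN (Nat.pos_of_ne_zero (NeZero.ne P))
  have h1 : ∑ χ : DirichletCharacter ℂ P, Q2 r q (xx f χ N) =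
      ∑ k ∈ range (r + 1), ∑ k' ∈ range (q + 1), ∑ i ∈ range (2 ^ (r - k)),
        ∑ i' ∈ range (2 ^ (q - k')), ∑ χ : DirichletCharacter ℂ P,
        ‖∑ b ∈ range (2 ^ k'), ∑ a ∈ range (2 ^ k),
          xx f χ N (i * 2 ^ k + a) (i' * 2 ^ k' + b)‖ ^ 2 := by
    unfold Q2
    rw [sum_comm]
    refine sum_congr rfl fun k _ => ?_
    rw [sum_comm]
    have : ∀ i ∈ range (2 ^ (r - k)), ∑ χ : DirichletCharacter ℂ P, ∑ k' ∈ range (q + 1),
        ∑ i' ∈ range (2 ^ (q - k')), ‖∑ b ∈ range (2 ^ k'), ∑ a ∈ range (2 ^ k),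
          xx f χ N (i * 2 ^ k + a) (i' * 2 ^ k' + b)‖ ^ 2 =
        ∑ k' ∈ range (q + 1), ∑ i' ∈ range (2 ^ (q - k')), ∑ χ : DirichletCharacter ℂ P,
        ‖∑ b ∈ range (2 ^ k'), ∑ a ∈ range (2 ^ k),
          xx f χ N (i * 2 ^ k + a) (i' * 2 ^ k' + b)‖ ^ 2 := by
      intro i _
      rw [sum_comm]
      refine sum_congr rfl fun k' _ => ?_
      rw [sum_comm]
    rw [sum_congr rfl this, sum_comm]
  rw [h1]
  have h2 : ∀ k ∈ range (r + 1), ∀ k' ∈ range (q + 1), ∑ i ∈ range (2 ^ (r - k)),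
        ∑ i' ∈ range (2 ^ (q - k')), ∑ χ : DirichletCharacter ℂ P,
        ‖∑ b ∈ range (2 ^ k'), ∑ a ∈ range (2 ^ k),
          xx f χ N (i * 2 ^ k + a) (i' * 2 ^ k' + b)‖ ^ 2 ≤
        P * (C * (((N + 2 ^ r) * 2 ^ q : ℕ) : ℝ) ^ ε *
        ((((N + 2 ^ r) * 2 ^ q : ℕ) : ℝ) / P + 1) * (2 ^ r * 2 ^ q)) := by
    intro k hk k' hk'
    rw [mem_range] at hk hk'
    have e1 : 2 ^ (r - k) * 2 ^ k = 2 ^ r := by rw [← pow_add]; congr 1; omega
    have e2 : 2 ^ (q - k') * 2 ^ k' = 2 ^ q := by rw [← pow_add]; congr 1; omega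
    have h3 : ∀ i ∈ range (2 ^ (r - k)), ∀ i' ∈ range (2 ^ (q - k')),
        ∑ χ : DirichletCharacter ℂ P, ‖∑ b ∈ range (2 ^ k'), ∑ a ∈ range (2 ^ k),
          xx f χ N (i * 2 ^ k + a) (i' * 2 ^ k' + b)‖ ^ 2 ≤
        P * ∑ b ∈ range (2 ^ k'), ∑ a ∈ range (2 ^ k),
          JJ P N r q (i * 2 ^ k + a) (i' * 2 ^ k' + b) := by
      intro i hi i' hi'
      rw [mem_range] at hi hi'
      refine block f hf N r q k i k' i' ?_ ?_
      · calc i * 2 ^ k + 2 ^ k = (i + 1) * 2 ^ k := by ring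
          _ ≤ 2 ^ (r - k) * 2 ^ k := Nat.mul_le_mul_right _ hi
          _ = 2 ^ r := e1
      · calc i' * 2 ^ k' + 2 ^ k' = (i' + 1) * 2 ^ k' := by ring
          _ ≤ 2 ^ (q - k') * 2 ^ k' := Nat.mul_le_mul_right _ hi'
          _ = 2 ^ q := e2
    refine (sum_le_sum fun i hi => sum_le_sum fun i' hi' => h3 i hi i' hi').trans ?_
    simp_rw [← mul_sum]
    refine mul_le_mul_of_nonneg_left ?_ (by positivity)
    refine le_trans (le_of_eq ?_) h0
    have h4 : ∀ i ∈ range (2 ^ (r - k)), ∑ i' ∈ range (2 ^ (q - k')), ∑ b ∈ range (2 ^ k'),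
        ∑ a ∈ range (2 ^ k), JJ P N r q (i * 2 ^ k + a) (i' * 2 ^ k' + b) =
        ∑ a ∈ range (2 ^ k), ∑ l ∈ range (2 ^ q), JJ P N r q (i * 2 ^ k + a) l := by
      intro i _
      refine (sum_blocks (fun l => ∑ a ∈ range (2 ^ k), JJ P N r q (i * 2 ^ k + a) l) (2 ^ k')
        (2 ^ (q - k'))).trans ?_
      rw [e2]
      exact sum_comm
    rw [sum_congr rfl h4, sum_blocks (fun i => ∑ l ∈ range (2 ^ q), JJ P N r q i l) (2 ^ k)
      (2 ^ (r - k)), e1]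
  refine (sum_le_sum fun k hk => sum_le_sum fun k' hk' => h2 k hk k' hk').trans (le_of_eq ?_)
  rw [sum_const, sum_const, card_range, card_range, nsmul_eq_mul, nsmul_eq_mul]
  push_cast
  ring

end Pool.Agent.L0h75.CV
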